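import Mathlib

/-!
# Spatial birth processes on the line: definitions
-/

set_option autoImplicit false
set_option linter.all false

open MeasureTheory Set Filter Topology

namespace Pool.Agent.R928.BP

/-- `Γ₀`: the finite subsets of the line -/
structure Cfg where
  pts : Finset ℝ

/-- the number of points of a configuration in a set -/
noncomputable def Cfg.cnt (η : Cfg) (B : Set ℝ) : ℕ := ((η.pts : Set ℝ) ∩ B).ncard

/-- `Γ₀` with the `σ`-algebra generated by the numbers of points in Borel sets -/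
instance instMSCfg : MeasurableSpace Cfg :=
  MeasurableSpace.generateFrom {S | ∃ B : Set ℝ, MeasurableSet B ∧ ∃ n : ℕ, S = {η : Cfg | η.cnt B = n}}

open Classical in
/-- a configuration with one more point -/
noncomputable def Cfg.add (η : Cfg) (x : ℝ) : Cfg := ⟨insert x η.pts⟩

open Classical in
/-- translate of a configuration -/
noncomputable def Cfg.shift (η : Cfg) (y : ℝ) : Cfg := ⟨η.pts.image (fun z => z + y)⟩

/-- condition (A4) with radius `r` -/
def A4 (b : ℝ → Cfg → ℝ) (r : ℝ) : Prop :=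
  ∃ c0 > 0, ∀ x (η : Cfg), (∃ y ∈ η.pts, |x - y| ≤ r) → c0 ≤ b x η

/-- admissible birth rates on the line (`d = 1`; `SO(1)` is trivial) -/
structure Admissible (b : ℝ → Cfg → ℝ) : Prop where
  nonneg : ∀ x η, 0 ≤ b x η
  meas : Measurable fun q : ℝ × Cfg => b q.1 q.2
  dom : ∃ a : ℝ → ℝ, (∀ x, 0 ≤ a x) ∧ (∃ θ > 0, Integrable fun x => Real.exp (θ * |x|) * a x) ∧
    ∀ x (η : Cfg), b x η ≤ ∑ y ∈ η.pts, a (x - y)
  mono : ∀ x (η ζ : Cfg), η.pts ⊆ ζ.pts → b x η ≤ b x ζ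
  transl : ∀ x y (η : Cfg), b (x + y) (η.shift y) = b x η
  lower : ∃ r > 0, A4 b r

/-- the generator -/
noncomputable def gen (b : ℝ → Cfg → ℝ) (f : Cfg → ℝ) (η : Cfg) : ℝ := ∫ x, (f (η.add x) - f η) * b x η

/-- the `σ`-algebra of the past -/
def past {Ω : Type} (η : ℝ → Ω → Cfg) (s : ℝ) : MeasurableSpace Ω :=
  ⨆ u : Icc (0 : ℝ) s, MeasurableSpace.comap (η u.1) instMSCfg

/-- the birth process with rate `b` started from `{0}`: a right continuous increasing process of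
finite configurations with births one at a time which solves the martingale problem of the
generator for all bounded measurable functions -/
structure IsBirthProcess {Ω : Type} [MeasurableSpace Ω] (P : Measure Ω) (b : ℝ → Cfg → ℝ)
    (η : ℝ → Ω → Cfg) : Prop where
  meas : ∀ t, 0 ≤ t → Measurable (η t)
  init : ∀ᵐ ω ∂P, (η 0 ω).pts = {0}
  mono : ∀ᵐ ω ∂P, ∀ s t, 0 ≤ s → s ≤ t → (η s ω).pts ⊆ (η t ω).pts
  rcont : ∀ᵐ ω ∂P, ∀ t, 0 ≤ t → ∀ᶠ u in 𝓝[>] t, η u ω = η t ω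
  single : ∀ᵐ ω ∂P, ∀ t, 0 < t → ∀ᶠ u in 𝓝[<] t, (((η t ω).pts : Set ℝ) \ (η u ω).pts).ncard ≤ 1
  mart : ∀ f : Cfg → ℝ, Measurable f → (∃ C, ∀ ζ, |f ζ| ≤ C) → ∀ s t, 0 ≤ s → s ≤ t →
    ∀ A, MeasurableSet[past η s] A →
      (∀ u ∈ Icc s t, Integrable (fun ω => gen b f (η u ω)) P) ∧
      IntervalIntegrable (fun u => ∫ ω in A, gen b f (η u ω) ∂P) volume s t ∧
      ∫ ω in A, f (η t ω) ∂P - ∫ ω in A, f (η s ω) ∂P = ∫ u in s..t, ∫ ω in A, gen b f (η u ω) ∂P

/-- the union of the closed balls of radius `r` around the particles -/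
def xi (r : ℝ) (η : Cfg) : Set ℝ := ⋃ x ∈ η.pts, Metric.closedBall x r

/-- `s` is the speed of propagation of the birth process with rate `b` (shape theorem) -/
def IsSpeed (b : ℝ → Cfg → ℝ) (s : ℝ) : Prop :=
  0 < s ∧ ∃ r > 0, A4 b r ∧ ∃ (Ω : Type) (_ : MeasurableSpace Ω) (P : Measure Ω) (η : ℝ → Ω → Cfg),
    IsProbabilityMeasure P ∧ IsBirthProcess P b η ∧
    ∀ ε ∈ Ioo (0 : ℝ) 1, ∀ᵐ ω ∂P, ∀ᶠ t in atTop,
      Metric.closedBall (0 : ℝ) ((1 - ε) * s) ⊆ (fun z => t⁻¹ * z) '' xi r (η t ω) ∧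
      (fun z => t⁻¹ * z) '' xi r (η t ω) ⊆ Metric.closedBall (0 : ℝ) ((1 + ε) * s)

end Pool.Agent.R928.BP
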