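import Pool.Agent.R928.BP.Speed

/-! Limits and the computation of the drifts. -/

set_option autoImplicit false
set_option linter.all false

open MeasureTheory Set Filter Topology

namespace Pool.Agent.R928.BP

section lim

variable {Ω : Type} [MeasurableSpace Ω] {P : Measure Ω} [IsProbabilityMeasure P] {η : ℝ → Ω → Cfg}

theorem tendsto_phi {b : ℝ → Cfg → ℝ} (H : IsBirthProcess P b η) {k : ℝ → ℝ} (hkc : Continuous k) (hk : ∀ d, |k d| ≤ 1) {s : ℝ}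
    (hs : ∀ᵐ ω ∂P, Tendsto (fun t => max (F (η t ω)) 0 / t) atTop (𝓝 s)) {ρ : ℝ} (hρ : 0 ≤ ρ) :
    Tendsto (fun n : ℕ => phi P η (ρ / ((n : ℝ) + 1)) k ((n : ℝ) + 1)) atTop (𝓝 (Real.exp (-(ρ * s)))) := by
  have e : Real.exp (-(ρ * s)) = ∫ _ω, Real.exp (-(ρ * s)) ∂P := by simp
  rw [e]
  unfold phi
  have hdiv : Tendsto (fun n : ℕ => ρ / ((n : ℝ) + 1)) atTop (𝓝 0) := by
    have := (tendsto_one_div_add_atTop_nhds_zero_nat (𝕜 := ℝ)).const_mul ρ
    rw [mul_zero] at this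
    refine this.congr fun n => ?_
    ring
  refine tendsto_integral_of_dominated_convergence (fun _ => Real.exp ρ) ?_ (integrable_const _) ?_ ?_
  · intro n
    exact ((fun1_meas hkc _).comp (H.meas _ (by positivity))).aestronglyMeasurable
  · intro n
    refine Eventually.of_forall fun ω => ?_
    rw [Real.norm_eq_abs]
    refine (fun1_abs hk (by positivity) _).trans (Real.exp_le_exp.mpr ?_)
    rw [div_le_iff₀ (by positivity)]
    nlinarith [Nat.cast_nonneg (α := ℝ) n]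
  · filter_upwards [hs] with ω hω
    unfold fun1 psi
    have ht : Tendsto (fun n : ℕ => (n : ℝ) + 1) atTop atTop := tendsto_atTop_add_const_right _ _ tendsto_natCast_atTop_atTop
    have h1 : Tendsto (fun n : ℕ => ρ * (max (F (η ((n : ℝ) + 1) ω)) 0 / ((n : ℝ) + 1))) atTop (𝓝 (ρ * s)) := (hω.comp ht).const_mul ρ
    have h2 : Tendsto (fun n : ℕ => ρ / ((n : ℝ) + 1) * k (D (η ((n : ℝ) + 1) ω))) atTop (𝓝 0) := by
      refine squeeze_zero_norm (fun n => ?_) hdiv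
      rw [Real.norm_eq_abs, abs_mul, abs_of_nonneg (by positivity)]
      exact mul_le_of_le_one_right (by positivity) (hk _)
    have h3 := (h1.add h2).neg
    rw [add_zero] at h3
    refine ((Real.continuous_exp.tendsto _).comp h3).congr fun n => ?_
    show Real.exp _ = Real.exp _
    congr 1
    ring

theorem exp_lim (ρ : ℝ) : Tendsto (fun n : ℕ => Real.exp (ρ / ((n : ℝ) + 1))) atTop (𝓝 1) := by
  have hdiv : Tendsto (fun n : ℕ => ρ / ((n : ℝ) + 1)) atTop (𝓝 0) := by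
    have := (tendsto_one_div_add_atTop_nhds_zero_nat (𝕜 := ℝ)).const_mul ρ
    rw [mul_zero] at this
    refine this.congr fun n => ?_
    ring
  have := (Real.continuous_exp.tendsto 0).comp hdiv
  rwa [Real.exp_zero] at this

variable {M m : ℝ} (H : IsBirthProcess P (rate M m) η) (hM : 0 ≤ M) (hm : 0 < m) {k : ℝ → ℝ} (hkc : Continuous k) (hk : ∀ d, |k d| ≤ 1)
  {s : ℝ} (hs : ∀ᵐ ω ∂P, Tendsto (fun t => max (F (η t ω)) 0 / t) atTop (𝓝 s)) {c : ℝ} (hc : 0 ≤ c)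

include H hM hm hkc hk hs hc in
theorem exp_ge (hL : ∀ ζ, Good ζ → Lam M m k ζ ≤ c) {ρ : ℝ} (hρ : 0 ≤ ρ) : 1 - ρ * c ≤ Real.exp (-(ρ * s)) := by
  have h1 : Tendsto (fun n : ℕ => Real.exp (-(ρ / ((n : ℝ) + 1))) - ρ * c * Real.exp (ρ / ((n : ℝ) + 1))) atTop (𝓝 (1 - ρ * c * 1)) := by
    refine Tendsto.sub ?_ ((exp_lim ρ).const_mul _)
    refine (exp_lim (-ρ)).congr fun n => ?_
    rw [neg_div]
  rw [mul_one] at h1
  refine le_of_tendsto_of_tendsto' h1 (tendsto_phi H hkc hk hs hρ) fun n => ?_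
  have hn : (0 : ℝ) < (n : ℝ) + 1 := by positivity
  have := phi_lower H hM hm hkc hk (lam := ρ / ((n : ℝ) + 1)) (by positivity) hc hL hn.le
  refine le_trans (le_of_eq ?_) this
  field_simp

include H hM hm hkc hk hs hc in
theorem exp_le (hL : ∀ ζ, Good ζ → c * (1 - one1 ζ) ≤ Lam M m k ζ) {ρ : ℝ} (hρ : 0 ≤ ρ) :
    Real.exp (-(ρ * s)) ≤ 1 - ρ * c + ρ ^ 2 * (c * (3 * (2 * m + 2 * M))) := by
  have hinv : Tendsto (fun n : ℕ => 1 / ((n : ℝ) + 1)) atTop (𝓝 0) := tendsto_one_div_add_atTop_nhds_zero_nat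
  have hE := exp_lim ρ
  have hE' : Tendsto (fun n : ℕ => Real.exp (-(ρ / ((n : ℝ) + 1)))) atTop (𝓝 1) := by
    refine (exp_lim (-ρ)).congr fun n => ?_
    rw [neg_div]
  have h1 : Tendsto (fun n : ℕ => Real.exp (ρ / ((n : ℝ) + 1)) - (ρ * c) * Real.exp (-(ρ / ((n : ℝ) + 1))) +
      (ρ ^ 2 * (c * (3 * (2 * m + 2 * M)))) * Real.exp (ρ / ((n : ℝ) + 1)) +
      (ρ * c * (1 / (2 * m))) * (Real.exp (ρ / ((n : ℝ) + 1)) * (1 / ((n : ℝ) + 1))) +
      (9 * ρ ^ 2 * (2 * m + 2 * M)) * (Real.exp (ρ / ((n : ℝ) + 1)) * (1 / ((n : ℝ) + 1)))) atTop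
      (𝓝 (1 - (ρ * c) * 1 + (ρ ^ 2 * (c * (3 * (2 * m + 2 * M)))) * 1 + (ρ * c * (1 / (2 * m))) * (1 * 0) + (9 * ρ ^ 2 * (2 * m + 2 * M)) * (1 * 0))) :=
    (((hE.sub (hE'.const_mul _)).add (hE.const_mul _)).add ((hE.mul hinv).const_mul _)).add ((hE.mul hinv).const_mul _)
  simp only [mul_one, mul_zero, add_zero] at h1
  refine le_of_tendsto_of_tendsto (tendsto_phi H hkc hk hs hρ) h1 ?_
  have hdiv : Tendsto (fun n : ℕ => 3 * (ρ / ((n : ℝ) + 1))) atTop (𝓝 0) := by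
    have := hinv.const_mul (3 * ρ)
    rw [mul_zero] at this
    refine this.congr fun n => ?_
    ring
  filter_upwards [hdiv.eventually (ge_mem_nhds (by norm_num : (0 : ℝ) < 1))] with n hn3
  have hn : (0 : ℝ) < (n : ℝ) + 1 := by positivity
  have := phi_upper H hM hm hkc hk (lam := ρ / ((n : ℝ) + 1)) (by positivity) hn3 hc hL hn.le
  refine le_trans this (le_of_eq ?_)
  field_simp

include H hM hm hkc hk hs hc in
theorem speed_le (hL : ∀ ζ, Good ζ → Lam M m k ζ ≤ c) (hs0 : 0 < s) : s ≤ c := by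
  by_contra hcon
  push Not at hcon
  obtain ⟨ρ, hρ⟩ : ∃ ρ, ρ = min (1 / s) ((s - c) / (2 * s ^ 2)) := ⟨_, rfl⟩
  have hρ0 : 0 < ρ := by rw [hρ]; exact lt_min (by positivity) (div_pos (by linarith) (by positivity))
  have h1 : ρ * s ≤ 1 := by
    have : ρ ≤ 1 / s := by rw [hρ]; exact min_le_left _ _
    rwa [le_div_iff₀ hs0] at this
  have h2 : ρ * (2 * s ^ 2) ≤ s - c := by
    have : ρ ≤ (s - c) / (2 * s ^ 2) := by rw [hρ]; exact min_le_right _ _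
    rwa [le_div_iff₀ (by positivity)] at this
  have h3 := exp_ge H hM hm hkc hk hs hc hL hρ0.le
  have h4 : |-(ρ * s)| ≤ 1 := by rw [abs_neg, abs_of_nonneg (by positivity)]; exact h1
  have h5 := (abs_le.mp (Real.abs_exp_sub_one_sub_id_le h4)).2
  have h6 : ρ * (s - c) ≤ ρ * (ρ * s ^ 2) := by nlinarith
  have h7 : s - c ≤ ρ * s ^ 2 := le_of_mul_le_mul_left h6 hρ0
  nlinarith

include H hM hm hkc hk hs hc in
theorem speed_ge (hL : ∀ ζ, Good ζ → c * (1 - one1 ζ) ≤ Lam M m k ζ) : c ≤ s := by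
  apply le_of_forall_pos_le_add
  intro ε hε
  obtain ⟨K, hK⟩ : ∃ K, K = c * (3 * (2 * m + 2 * M)) + 1 := ⟨_, rfl⟩
  have hK0 : 0 < K := by rw [hK]; positivity
  have hρ0 : 0 < ε / K := by positivity
  have h1 := exp_le H hM hm hkc hk hs hc hL hρ0.le
  have h2 := Real.add_one_le_exp (-(ε / K * s))
  have h3 : ε / K * (c - s) ≤ ε / K * (ε / K * (K - 1)) := by
    rw [hK] at *
    nlinarith
  have h4 : c - s ≤ ε / K * (K - 1) := le_of_mul_le_mul_left h3 hρ0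
  have h5 : ε / K * (K - 1) ≤ ε := by
    have : ε / K * K = ε := by field_simp
    nlinarith
  linarith

/-- the rightmost particle moves with the speed of the shape theorem -/
theorem shape_tendsto {b : ℝ → Cfg → ℝ} (H : IsBirthProcess P b η) {r s : ℝ} (hr : 0 < r) (hs : 0 < s)
    (hsh : ∀ ε ∈ Ioo (0 : ℝ) 1, ∀ᵐ ω ∂P, ∀ᶠ t in atTop,
      Metric.closedBall (0 : ℝ) ((1 - ε) * s) ⊆ (fun z => t⁻¹ * z) '' xi r (η t ω) ∧
      (fun z => t⁻¹ * z) '' xi r (η t ω) ⊆ Metric.closedBall (0 : ℝ) ((1 + ε) * s)) :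
    ∀ᵐ ω ∂P, Tendsto (fun t => max (F (η t ω)) 0 / t) atTop (𝓝 s) := by
  have h1 : ∀ᵐ ω ∂P, ∀ j : ℕ, ∀ᶠ t in atTop,
      Metric.closedBall (0 : ℝ) ((1 - 1 / ((j : ℝ) + 2)) * s) ⊆ (fun z => t⁻¹ * z) '' xi r (η t ω) ∧
      (fun z => t⁻¹ * z) '' xi r (η t ω) ⊆ Metric.closedBall (0 : ℝ) ((1 + 1 / ((j : ℝ) + 2)) * s) := by
    rw [ae_all_iff]
    intro j
    apply hsh
    constructor
    · positivity
    · rw [div_lt_one (by positivity)]
      linarith [Nat.cast_nonneg (α := ℝ) j]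
  filter_upwards [h1, mem0 H] with ω h1 h0
  rw [Metric.tendsto_atTop']
  intro δ hδ
  obtain ⟨j, hj⟩ := exists_nat_gt (2 * s / δ)
  have hj1 : 1 / ((j : ℝ) + 2) * s < δ / 2 := by
    rw [div_lt_iff₀ hδ] at hj
    rw [div_mul_eq_mul_div, one_mul, div_lt_iff₀ (by positivity)]
    nlinarith
  obtain ⟨T, hT⟩ := eventually_atTop.mp (h1 j)
  refine ⟨max T (max 1 (2 * r / δ)), fun t ht => ?_⟩
  have ht1 : T < t := lt_of_le_of_lt (le_max_left _ _) ht
  have ht2 : 1 < t := lt_of_le_of_lt ((le_max_left _ _).trans (le_max_right _ _)) ht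
  have ht3 : 2 * r / δ < t := lt_of_le_of_lt ((le_max_right _ _).trans (le_max_right _ _)) ht
  have ht0 : 0 < t := by linarith
  obtain ⟨a1, a2⟩ := hT t ht1.le
  have hmem := h0 t ht0.le
  have hne : (η t ω).pts.Nonempty := ⟨0, hmem⟩
  have hF0 := le_F hmem
  -- lower
  have hj0 : (0 : ℝ) < 1 / ((j : ℝ) + 2) := by positivity
  have hj2 : 1 / ((j : ℝ) + 2) < 1 := by
    rw [div_lt_one (by positivity)]
    linarith [Nat.cast_nonneg (α := ℝ) j]
  have hz : ((1 - 1 / ((j : ℝ) + 2)) * s) ∈ Metric.closedBall (0 : ℝ) ((1 - 1 / ((j : ℝ) + 2)) * s) := by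
    rw [Metric.mem_closedBall, dist_zero_right, Real.norm_eq_abs, abs_of_nonneg]
    exact mul_nonneg (by linarith) hs.le
  obtain ⟨z, hz1, hz2⟩ := a1 hz
  unfold xi at hz1
  rw [mem_iUnion₂] at hz1
  obtain ⟨y, hy, hzy⟩ := hz1
  rw [Metric.mem_closedBall, Real.dist_eq] at hzy
  have hyF := le_F hy
  have hz3 : z = t * ((1 - 1 / ((j : ℝ) + 2)) * s) := by
    rw [← hz2]; field_simp
  have hzy' := (abs_le.mp hzy).2
  have hlow : t * ((1 - 1 / ((j : ℝ) + 2)) * s) - r ≤ F (η t ω) := by linarith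
  -- upper
  have hup : t⁻¹ * F (η t ω) ∈ Metric.closedBall (0 : ℝ) ((1 + 1 / ((j : ℝ) + 2)) * s) := by
    apply a2
    refine ⟨F (η t ω), ?_, rfl⟩
    unfold xi
    rw [mem_iUnion₂]
    exact ⟨F (η t ω), F_mem hne, Metric.mem_closedBall_self hr.le⟩
  rw [Metric.mem_closedBall, dist_zero_right, Real.norm_eq_abs] at hup
  have hup' := (abs_le.mp hup).2
  rw [Real.dist_eq, max_eq_left hF0, abs_lt]
  have e1 : F (η t ω) / t = t⁻¹ * F (η t ω) := by rw [div_eq_inv_mul]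
  constructor
  · have h5 : (t * ((1 - 1 / ((j : ℝ) + 2)) * s) - r) / t ≤ F (η t ω) / t := div_le_div_of_nonneg_right hlow ht0.le
    have h6 : (t * ((1 - 1 / ((j : ℝ) + 2)) * s) - r) / t = (1 - 1 / ((j : ℝ) + 2)) * s - r / t := by field_simp
    have h7 : r / t < δ / 2 := by
      rw [div_lt_iff₀ hδ] at ht3
      rw [div_lt_iff₀ ht0]
      linarith
    rw [h6] at h5
    nlinarith
  · rw [e1]
    nlinarith

end lim

/-! ### the three drifts -/

/-- clamp -/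
noncomputable def cl (d : ℝ) : ℝ := max 0 (min d 1)

theorem cl_of {d : ℝ} (h0 : 0 ≤ d) (h1 : d ≤ 1) : cl d = d := by unfold cl; rw [min_eq_left h1, max_eq_right h0]

theorem cl_mem (d : ℝ) : 0 ≤ cl d ∧ cl d ≤ 1 := ⟨le_max_left _ _, max_le zero_le_one (min_le_right _ _)⟩

/-- quadratic corrections -/
noncomputable def kq (α β d : ℝ) : ℝ := α * cl d + β * cl d ^ 2

theorem kq_cont (α β : ℝ) : Continuous (kq α β) := by unfold kq cl; fun_prop

theorem int1 {α β y κ : ℝ} (h0 : 0 ≤ y) (h1 : y ≤ 1) : ∫ u in (0 : ℝ)..y, (u + kq α β u - κ) = y ^ 2 / 2 + α * y ^ 2 / 2 + β * y ^ 3 / 3 - κ * y := by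
  have e : ∫ u in (0 : ℝ)..y, (u + kq α β u - κ) = ∫ u in (0 : ℝ)..y, ((1 + α) * u + β * u ^ 2 - κ) := by
    refine intervalIntegral.integral_congr fun u hu => ?_
    rw [uIcc_of_le h0] at hu
    show u + kq α β u - κ = _
    unfold kq
    rw [cl_of hu.1 (hu.2.trans h1)]
    ring
  have hd : ∀ u ∈ uIcc 0 y, HasDerivAt (fun u : ℝ => (1 + α) * (u ^ 2 / 2) + β * (u ^ 3 / 3) - κ * u) ((1 + α) * u + β * u ^ 2 - κ) u := by
    intro u _
    have h2 := ((hasDerivAt_pow 2 u).div_const 2).const_mul (1 + α)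
    have h3 := ((hasDerivAt_pow 3 u).div_const 3).const_mul β
    have h4 := (hasDerivAt_id u).const_mul κ
    refine ((h2.add h3).sub h4).congr_deriv ?_
    push_cast
    ring
  rw [e, intervalIntegral.integral_eq_sub_of_hasDerivAt hd (Continuous.intervalIntegrable (by fun_prop) _ _)]
  ring

theorem int2 {α β y κ : ℝ} (h0 : 0 ≤ y) (h1 : y ≤ 1) : ∫ u in (0 : ℝ)..y, (kq α β u - κ) = α * y ^ 2 / 2 + β * y ^ 3 / 3 - κ * y := by
  have e : ∫ u in (0 : ℝ)..y, (kq α β u - κ) = ∫ u in (0 : ℝ)..y, (α * u + β * u ^ 2 - κ) := by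
    refine intervalIntegral.integral_congr fun u hu => ?_
    rw [uIcc_of_le h0] at hu
    show kq α β u - κ = _
    unfold kq
    rw [cl_of hu.1 (hu.2.trans h1)]
  have hd : ∀ u ∈ uIcc 0 y, HasDerivAt (fun u : ℝ => α * (u ^ 2 / 2) + β * (u ^ 3 / 3) - κ * u) (α * u + β * u ^ 2 - κ) u := by
    intro u _
    have h2 := ((hasDerivAt_pow 2 u).div_const 2).const_mul α
    have h3 := ((hasDerivAt_pow 3 u).div_const 3).const_mul β
    have h4 := (hasDerivAt_id u).const_mul κ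
    refine ((h2.add h3).sub h4).congr_deriv ?_
    push_cast
    ring
  rw [e, intervalIntegral.integral_eq_sub_of_hasDerivAt hd (Continuous.intervalIntegrable (by fun_prop) _ _)]
  ring

theorem Lam_eq {M m α β : ℝ} {ζ : Cfg} (hζ : Good ζ) : Lam M m (kq α β) ζ =
    m * (1 / 2 + α / 2 + β / 3 - (α * D ζ + β * D ζ ^ 2)) +
    M * ((1 - D ζ) ^ 2 / 2 + α * (1 - D ζ) ^ 2 / 2 + β * (1 - D ζ) ^ 3 / 3 - (α * D ζ + β * D ζ ^ 2) * (1 - D ζ)) +
    (m + M2 M ζ) * (α * D ζ ^ 2 / 2 + β * D ζ ^ 3 / 3 - (α * D ζ + β * D ζ ^ 2) * D ζ) := by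
  have hD0 := hζ.D_pos
  have hD1 := hζ.2
  unfold Lam
  rw [int1 zero_le_one le_rfl, int1 (by linarith) (by linarith), int2 hD0.le hD1]
  have : kq α β (D ζ) = α * D ζ + β * D ζ ^ 2 := by unfold kq; rw [cl_of hD0.le hD1]
  rw [this]
  ring

theorem drift1 {ζ : Cfg} (hζ : Good ζ) : 1 / 4 * (1 - one1 ζ) ≤ Lam 1 (1 / 100) (kq (-(1 / 2)) 0) ζ := by
  rw [Lam_eq hζ]
  have hD0 := hζ.D_pos
  have hD1 := hζ.2
  unfold one1 M2
  split_ifs
  · nlinarith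
  · nlinarith

theorem drift2 {ζ : Cfg} (hζ : Good ζ) : 500 * (1 - one1 ζ) ≤ Lam 0 1000 (kq 0 0) ζ := by
  rw [Lam_eq hζ]
  have := one1_nonneg ζ
  linarith

theorem drift3 {ζ : Cfg} (hζ : Good ζ) : Lam 1 (1 / 100 + 1000) (kq (-(9 / 10000)) (55 / 100000)) ζ ≤ 500249 / 1000 := by
  rw [Lam_eq hζ]
  have hD0 := hζ.D_pos
  have hD1 := hζ.2
  have h2 : M2 1 ζ ≤ 1 := M2_le zero_le_one ζ
  have h3 : 0 ≤ M2 1 ζ := M2_nonneg zero_le_one ζ
  obtain ⟨x, hx⟩ : ∃ x, x = D ζ := ⟨_, rfl⟩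
  obtain ⟨w, hw⟩ : ∃ w, w = M2 1 ζ := ⟨_, rfl⟩
  rw [← hx] at hD0 hD1 ⊢
  rw [← hw] at h2 h3 ⊢
  have h4 : w * (-(9 / 10000) * x ^ 2 / 2 + 55 / 100000 * x ^ 3 / 3 - (-(9 / 10000) * x + 55 / 100000 * x ^ 2) * x) ≤ 1 / 1000 := by
    have e : -(9 / 10000) * x ^ 2 / 2 + 55 / 100000 * x ^ 3 / 3 - (-(9 / 10000) * x + 55 / 100000 * x ^ 2) * x = 9 / 20000 * x ^ 2 - 11 / 30000 * x ^ 3 := by ring
    rw [e]
    have e2 : 0 ≤ 9 / 20000 * x ^ 2 - 11 / 30000 * x ^ 3 := by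
      have : x ^ 3 ≤ x ^ 2 := by nlinarith [sq_nonneg x]
      nlinarith [sq_nonneg x]
    have e3 : 9 / 20000 * x ^ 2 - 11 / 30000 * x ^ 3 ≤ 1 / 1000 := by
      have : 0 ≤ x ^ 3 := by positivity
      nlinarith [sq_nonneg x]
    nlinarith
  have h5 : 0 ≤ x * (x - 567 / 1000) ^ 2 := by positivity
  have h6 : 0 ≤ (x - 566 / 1000) ^ 2 := by positivity
  nlinarith [h4, h5, h6, mul_nonneg hD0.le (sub_nonneg.mpr hD1), mul_nonneg (mul_nonneg hD0.le hD0.le) (sub_nonneg.mpr hD1)]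

end Pool.Agent.R928.BP
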