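import Pool.Agent.R928.BP.Rate

/-! Estimates for the process. -/

set_option autoImplicit false
set_option linter.all false

open MeasureTheory Set Filter Topology

namespace Pool.Agent.R928.BP

/-! ### the exponential functionals -/

/-- exponential functional of the two top particles -/
noncomputable def psi (lam : ℝ) (k : ℝ → ℝ) (a d : ℝ) : ℝ := Real.exp (-(lam * (max a 0 + k d)))

/-- drift -/
noncomputable def Lam (M m : ℝ) (k : ℝ → ℝ) (η : Cfg) : ℝ :=
  m * (∫ u in (0 : ℝ)..1, (u + k u - k (D η))) + M * (∫ u in (0 : ℝ)..(1 - D η), (u + k u - k (D η))) +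
    (m + M2 M η) * (∫ u in (0 : ℝ)..(D η), (k u - k (D η)))

theorem psi_le {lam : ℝ} (hl : 0 ≤ lam) {k : ℝ → ℝ} (hk : ∀ d, |k d| ≤ 1) (a d : ℝ) : psi lam k a d ≤ Real.exp lam := by
  unfold psi
  apply Real.exp_le_exp.mpr
  have h1 := (abs_le.mp (hk d)).1
  have h2 : 0 ≤ max a 0 := le_max_right _ _
  nlinarith

theorem psi_pos (lam : ℝ) (k : ℝ → ℝ) (a d : ℝ) : 0 < psi lam k a d := Real.exp_pos _

theorem M2_nonneg {M : ℝ} (hM : 0 ≤ M) (η : Cfg) : 0 ≤ M2 M η := by unfold M2; split_ifs <;> linarith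

theorem M2_le {M : ℝ} (hM : 0 ≤ M) (η : Cfg) : M2 M η ≤ M := by unfold M2; split_ifs <;> linarith

/-- good configurations -/
def Good (η : Cfg) : Prop := (0 : ℝ) ∈ η.pts ∧ D η ≤ 1

theorem Good.ne {η : Cfg} (h : Good η) : η.pts.Nonempty := ⟨0, h.1⟩

theorem Good.F_nonneg {η : Cfg} (h : Good η) : 0 ≤ F η := le_F h.1

theorem Good.D_pos {η : Cfg} (h : Good η) : 0 < D η := by
  have := G_lt_F η h.ne
  unfold D; linarith

section gen

variable {M m lam : ℝ} (hM : 0 ≤ M) (hm : 0 ≤ m) (hl : 0 ≤ lam) {k : ℝ → ℝ} (hkc : Continuous k) (hk : ∀ d, |k d| ≤ 1)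
  {η : Cfg} (hη : Good η)

include hkc hη in
theorem gen_psi : gen (rate M m) (fun ζ => psi lam k (F ζ) (D ζ)) η =
      m * (∫ u in (0 : ℝ)..1, (psi lam k (F η + u) u - psi lam k (F η) (D η))) +
      M * (∫ u in (0 : ℝ)..(1 - D η), (psi lam k (F η + u) u - psi lam k (F η) (D η))) +
      (m + M2 M η) * (∫ u in (0 : ℝ)..(D η), (psi lam k (F η) u - psi lam k (F η) (D η))) := by
  apply gen_eq M m hη.ne hη.2 (psi lam k)
  · unfold psi; fun_prop
  · unfold psi; fun_prop

include hη in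
theorem psi_diff1 {u : ℝ} (hu : 0 ≤ u) : psi lam k (F η + u) u - psi lam k (F η) (D η) =
    psi lam k (F η) (D η) * (Real.exp (-(lam * (u + k u - k (D η)))) - 1) := by
  unfold psi
  rw [mul_sub, ← Real.exp_add, mul_one, max_eq_left hη.F_nonneg, max_eq_left (by linarith [hη.F_nonneg])]
  congr 2
  ring

include hη in
theorem psi_diff2 (u : ℝ) : psi lam k (F η) u - psi lam k (F η) (D η) =
    psi lam k (F η) (D η) * (Real.exp (-(lam * (k u - k (D η)))) - 1) := by
  unfold psi
  rw [mul_sub, ← Real.exp_add, mul_one]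
  congr 2
  ring

include hkc hη in
theorem J1_lower {y : ℝ} (hy : 0 ≤ y) : psi lam k (F η) (D η) * (-lam) * (∫ u in (0 : ℝ)..y, (u + k u - k (D η))) ≤
    ∫ u in (0 : ℝ)..y, (psi lam k (F η + u) u - psi lam k (F η) (D η)) := by
  rw [← intervalIntegral.integral_const_mul]
  refine intervalIntegral.integral_mono_on hy ?_ ?_ ?_
  · exact Continuous.intervalIntegrable (by fun_prop) _ _
  · exact Continuous.intervalIntegrable (by unfold psi; fun_prop) _ _
  · intro u hu
    rw [psi_diff1 hη hu.1, mul_assoc]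
    refine mul_le_mul_of_nonneg_left ?_ (psi_pos _ _ _ _).le
    have := Real.add_one_le_exp (-(lam * (u + k u - k (D η))))
    linarith

include hkc hη in
theorem J2_lower {y : ℝ} (hy : 0 ≤ y) : psi lam k (F η) (D η) * (-lam) * (∫ u in (0 : ℝ)..y, (k u - k (D η))) ≤
    ∫ u in (0 : ℝ)..y, (psi lam k (F η) u - psi lam k (F η) (D η)) := by
  rw [← intervalIntegral.integral_const_mul]
  refine intervalIntegral.integral_mono_on hy ?_ ?_ ?_
  · exact Continuous.intervalIntegrable (by fun_prop) _ _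
  · exact Continuous.intervalIntegrable (by unfold psi; fun_prop) _ _
  · intro u hu
    rw [psi_diff2 hη u, mul_assoc]
    refine mul_le_mul_of_nonneg_left ?_ (psi_pos _ _ _ _).le
    have := Real.add_one_le_exp (-(lam * (k u - k (D η))))
    linarith

include hM hm hkc hη in
theorem gen_lower : psi lam k (F η) (D η) * (-lam) * Lam M m k η ≤ gen (rate M m) (fun ζ => psi lam k (F ζ) (D ζ)) η := by
  rw [gen_psi hkc hη]
  unfold Lam
  have h1 := mul_le_mul_of_nonneg_left (J1_lower (lam := lam) hkc hη zero_le_one) hm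
  have h2 := mul_le_mul_of_nonneg_left (J1_lower (lam := lam) hkc hη (y := 1 - D η) (by linarith [hη.2])) hM
  have h3 := mul_le_mul_of_nonneg_left (J2_lower (lam := lam) hkc hη hη.D_pos.le) (add_nonneg hm (M2_nonneg hM η))
  nlinarith

theorem exp_quad {lam d : ℝ} (hl : 0 ≤ lam) (hl3 : 3 * lam ≤ 1) (hd : |d| ≤ 3) : Real.exp (-(lam * d)) - 1 ≤ -lam * d + 9 * lam ^ 2 := by
  have h1 : |-(lam * d)| ≤ 1 := by
    rw [abs_neg, abs_mul, abs_of_nonneg hl]
    nlinarith [abs_nonneg d]
  have h2 := (abs_le.mp (Real.abs_exp_sub_one_sub_id_le h1)).2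
  have h3 : (-(lam * d)) ^ 2 ≤ 9 * lam ^ 2 := by
    have h4 : d ^ 2 ≤ 9 := by
      have := sq_abs d
      nlinarith [abs_nonneg d]
    have : (-(lam * d)) ^ 2 = lam ^ 2 * d ^ 2 := by ring
    rw [this]
    nlinarith [sq_nonneg lam]
  linarith

include hl hk in
theorem del1_abs {u : ℝ} (hu : 0 ≤ u) (hu1 : u ≤ 1) : |u + k u - k (D η)| ≤ 3 := by
  have h1 := abs_le.mp (hk u)
  have h2 := abs_le.mp (hk (D η))
  exact abs_le.mpr ⟨by linarith [h1.1, h2.2], by linarith [h1.2, h2.1]⟩

include hl hk in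
theorem del2_abs (u : ℝ) : |k u - k (D η)| ≤ 3 := by
  have h1 := abs_le.mp (hk u)
  have h2 := abs_le.mp (hk (D η))
  exact abs_le.mpr ⟨by linarith [h1.1, h2.2], by linarith [h1.2, h2.1]⟩

include hl hkc hk hη in
theorem J1_upper (hl3 : 3 * lam ≤ 1) {y : ℝ} (hy : 0 ≤ y) (hy1 : y ≤ 1) :
    ∫ u in (0 : ℝ)..y, (psi lam k (F η + u) u - psi lam k (F η) (D η)) ≤
    psi lam k (F η) (D η) * (-lam) * (∫ u in (0 : ℝ)..y, (u + k u - k (D η))) + psi lam k (F η) (D η) * (9 * lam ^ 2) * y := by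
  have e : psi lam k (F η) (D η) * (-lam) * (∫ u in (0 : ℝ)..y, (u + k u - k (D η))) + psi lam k (F η) (D η) * (9 * lam ^ 2) * y =
      ∫ u in (0 : ℝ)..y, (psi lam k (F η) (D η) * (-lam) * (u + k u - k (D η)) + psi lam k (F η) (D η) * (9 * lam ^ 2)) := by
    rw [intervalIntegral.integral_add, intervalIntegral.integral_const_mul, intervalIntegral.integral_const, smul_eq_mul]
    · ring
    · exact Continuous.intervalIntegrable (by fun_prop) _ _
    · exact Continuous.intervalIntegrable (by fun_prop) _ _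
  rw [e]
  refine intervalIntegral.integral_mono_on hy ?_ ?_ ?_
  · exact Continuous.intervalIntegrable (by unfold psi; fun_prop) _ _
  · exact Continuous.intervalIntegrable (by fun_prop) _ _
  · intro u hu
    rw [psi_diff1 hη hu.1, mul_assoc, ← mul_add]
    exact mul_le_mul_of_nonneg_left (exp_quad hl hl3 (del1_abs hl hk hu.1 (hu.2.trans hy1))) (psi_pos _ _ _ _).le

include hl hkc hk hη in
theorem J2_upper (hl3 : 3 * lam ≤ 1) {y : ℝ} (hy : 0 ≤ y) :
    ∫ u in (0 : ℝ)..y, (psi lam k (F η) u - psi lam k (F η) (D η)) ≤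
    psi lam k (F η) (D η) * (-lam) * (∫ u in (0 : ℝ)..y, (k u - k (D η))) + psi lam k (F η) (D η) * (9 * lam ^ 2) * y := by
  have e : psi lam k (F η) (D η) * (-lam) * (∫ u in (0 : ℝ)..y, (k u - k (D η))) + psi lam k (F η) (D η) * (9 * lam ^ 2) * y =
      ∫ u in (0 : ℝ)..y, (psi lam k (F η) (D η) * (-lam) * (k u - k (D η)) + psi lam k (F η) (D η) * (9 * lam ^ 2)) := by
    rw [intervalIntegral.integral_add, intervalIntegral.integral_const_mul, intervalIntegral.integral_const, smul_eq_mul]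
    · ring
    · exact Continuous.intervalIntegrable (by fun_prop) _ _
    · exact Continuous.intervalIntegrable (by fun_prop) _ _
  rw [e]
  refine intervalIntegral.integral_mono_on hy ?_ ?_ ?_
  · exact Continuous.intervalIntegrable (by unfold psi; fun_prop) _ _
  · exact Continuous.intervalIntegrable (by fun_prop) _ _
  · intro u hu
    rw [psi_diff2 hη u, mul_assoc, ← mul_add]
    exact mul_le_mul_of_nonneg_left (exp_quad hl hl3 (del2_abs hl hk u)) (psi_pos _ _ _ _).le

include hM hm hl hkc hk hη in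
theorem gen_upper (hl3 : 3 * lam ≤ 1) : gen (rate M m) (fun ζ => psi lam k (F ζ) (D ζ)) η ≤
    psi lam k (F η) (D η) * (-lam) * Lam M m k η + psi lam k (F η) (D η) * (9 * lam ^ 2) * (2 * m + 2 * M) := by
  rw [gen_psi hkc hη]
  unfold Lam
  have hD0 := hη.D_pos
  have hD1 := hη.2
  have h1 := mul_le_mul_of_nonneg_left (J1_upper hl hkc hk hη hl3 zero_le_one le_rfl) hm
  have h2 := mul_le_mul_of_nonneg_left (J1_upper hl hkc hk hη hl3 (y := 1 - D η) (by linarith) (by linarith)) hM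
  have h3 := mul_le_mul_of_nonneg_left (J2_upper hl hkc hk hη hl3 hD0.le) (add_nonneg hm (M2_nonneg hM η))
  have hq : 0 ≤ psi lam k (F η) (D η) * (9 * lam ^ 2) := mul_nonneg (psi_pos _ _ _ _).le (by positivity)
  have h4 : m * 1 + M * (1 - D η) + (m + M2 M η) * D η ≤ 2 * m + 2 * M := by
    have := M2_le hM η
    have := M2_nonneg hM η
    nlinarith
  have h5 := mul_le_mul_of_nonneg_left h4 hq
  nlinarith

include hM hm hkc hk hη in
theorem Lam_le : Lam M m k η ≤ 3 * (2 * m + 2 * M) := by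
  have hD0 := hη.D_pos
  have hD1 := hη.2
  have I1 : ∀ y : ℝ, 0 ≤ y → y ≤ 1 → ∫ u in (0 : ℝ)..y, (u + k u - k (D η)) ≤ 3 * y := by
    intro y h0 h1
    have e : 3 * y = ∫ _u in (0 : ℝ)..y, (3 : ℝ) := by rw [intervalIntegral.integral_const, smul_eq_mul]; ring
    rw [e]
    refine intervalIntegral.integral_mono_on h0 (Continuous.intervalIntegrable (by fun_prop) _ _) (Continuous.intervalIntegrable (by fun_prop) _ _) ?_
    intro u hu
    exact (abs_le.mp (del1_abs le_rfl hk hu.1 (hu.2.trans h1))).2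
  have I2 : ∀ y : ℝ, 0 ≤ y → ∫ u in (0 : ℝ)..y, (k u - k (D η)) ≤ 3 * y := by
    intro y h0
    have e : 3 * y = ∫ _u in (0 : ℝ)..y, (3 : ℝ) := by rw [intervalIntegral.integral_const, smul_eq_mul]; ring
    rw [e]
    refine intervalIntegral.integral_mono_on h0 (Continuous.intervalIntegrable (by fun_prop) _ _) (Continuous.intervalIntegrable (by fun_prop) _ _) ?_
    intro u hu
    exact (abs_le.mp (del2_abs le_rfl hk u)).2
  unfold Lam
  have h1 := mul_le_mul_of_nonneg_left (I1 1 zero_le_one le_rfl) hm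
  have h2 := mul_le_mul_of_nonneg_left (I1 (1 - D η) (by linarith) (by linarith)) hM
  have h3 := mul_le_mul_of_nonneg_left (I2 (D η) hD0.le) (add_nonneg hm (M2_nonneg hM η))
  have := M2_le hM η
  have := M2_nonneg hM η
  nlinarith

end gen

end Pool.Agent.R928.BP
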