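import Pool.Agent.R928.BP.Top

/-! The birth rates. -/

set_option autoImplicit false
set_option linter.all false

open MeasureTheory Set Filter Topology

namespace Pool.Agent.R928.BP

/-- indicator of the event that at least `k` particles are within distance `1` of `x` -/
noncomputable def near (k : ℕ) (x : ℝ) (η : Cfg) : ℝ := if k ≤ η.cnt (Icc (x - 1) (x + 1)) then 1 else 0

/-- the birth rates -/
noncomputable def rate (M m : ℝ) (x : ℝ) (η : Cfg) : ℝ := M * near 2 x η + m * near 1 x η

theorem near_nonneg (k : ℕ) (x : ℝ) (η : Cfg) : 0 ≤ near k x η := by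
  unfold near; split_ifs <;> norm_num

theorem near_le_one (k : ℕ) (x : ℝ) (η : Cfg) : near k x η ≤ 1 := by
  unfold near; split_ifs <;> norm_num

theorem cnt_mono {η ζ : Cfg} {B C : Set ℝ} (h1 : η.pts ⊆ ζ.pts) (h2 : B ⊆ C) : η.cnt B ≤ ζ.cnt C := by
  unfold Cfg.cnt
  refine Set.ncard_le_ncard ?_ (ζ.pts.finite_toSet.subset inter_subset_left)
  exact inter_subset_inter (Finset.coe_subset.mpr h1) h2

theorem near_mono (k : ℕ) (x : ℝ) {η ζ : Cfg} (h : η.pts ⊆ ζ.pts) : near k x η ≤ near k x ζ := by
  unfold near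
  have := cnt_mono h (Subset.refl (Icc (x - 1) (x + 1)))
  split_ifs <;> first | omega | norm_num

theorem near_transl (k : ℕ) (x y : ℝ) (η : Cfg) : near k (x + y) (η.shift y) = near k x η := by
  have h : (η.shift y).cnt (Icc (x + y - 1) (x + y + 1)) = η.cnt (Icc (x - 1) (x + 1)) := by
    unfold Cfg.cnt
    have e : (((η.shift y).pts : Set ℝ) ∩ Icc (x + y - 1) (x + y + 1)) = (fun z => z + y) '' ((η.pts : Set ℝ) ∩ Icc (x - 1) (x + 1)) := by
      unfold Cfg.shift
      ext z
      simp only [Finset.coe_image, mem_inter_iff, mem_image, Finset.mem_coe, mem_Icc]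
      constructor
      · rintro ⟨⟨w, hw, rfl⟩, h1, h2⟩
        exact ⟨w, ⟨hw, by linarith, by linarith⟩, rfl⟩
      · rintro ⟨w, ⟨hw, h1, h2⟩, rfl⟩
        exact ⟨⟨w, hw, rfl⟩, by linarith, by linarith⟩
    rw [e, Set.ncard_image_of_injective _ (add_left_injective y)]
  unfold near
  rw [h]

theorem near_meas (k : ℕ) : Measurable fun q : ℝ × Cfg => near k q.1 q.2 := by
  unfold near
  refine Measurable.ite ?_ measurable_const measurable_const
  have e : {q : ℝ × Cfg | k ≤ q.2.cnt (Icc (q.1 - 1) (q.1 + 1))} = ⋂ n : ℕ, ⋃ r : ℚ,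
      ({q : ℝ × Cfg | |q.1 - r| ≤ 1 / ((n : ℝ) + 1)} ∩
        {q : ℝ × Cfg | k ≤ q.2.cnt (Icc ((r : ℝ) - 1 - 1 / ((n : ℝ) + 1)) ((r : ℝ) + 1 + 1 / ((n : ℝ) + 1)))}) := by
    ext ⟨x, η⟩
    simp only [mem_setOf_eq, mem_iInter, mem_iUnion, mem_inter_iff]
    constructor
    · intro h n
      have hn : (0 : ℝ) < 1 / ((n : ℝ) + 1) := by positivity
      obtain ⟨r, hr1, hr2⟩ := exists_rat_btwn (show x < x + 1 / ((n : ℝ) + 1) by linarith)
      refine ⟨r, abs_le.mpr ⟨by linarith, by linarith⟩, h.trans (cnt_mono (Finset.Subset.refl _) ?_)⟩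
      exact Icc_subset_Icc (by linarith) (by linarith)
    · intro h
      have h1 : ∀ n : ℕ, k ≤ η.cnt (Icc (x - 1 - 2 * (1 / ((n : ℝ) + 1))) (x + 1 + 2 * (1 / ((n : ℝ) + 1)))) := by
        intro n
        obtain ⟨r, hr1, hr2⟩ := h n
        rw [abs_le] at hr1
        refine hr2.trans (cnt_mono (Finset.Subset.refl _) (Icc_subset_Icc ?_ ?_))
        · linarith [hr1.1]
        · linarith [hr1.2]
      have h2 : ∀ y ∈ η.pts, ∀ᶠ n : ℕ in atTop, (y ∈ Icc (x - 1 - 2 * (1 / ((n : ℝ) + 1))) (x + 1 + 2 * (1 / ((n : ℝ) + 1))) → y ∈ Icc (x - 1) (x + 1)) := by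
        intro y _
        by_cases hy : y ∈ Icc (x - 1) (x + 1)
        · exact Eventually.of_forall fun _ _ => hy
        · have h3 : Tendsto (fun n : ℕ => 2 * (1 / ((n : ℝ) + 1))) atTop (𝓝 (2 * 0)) := tendsto_one_div_add_atTop_nhds_zero_nat.const_mul 2
          rw [mul_zero] at h3
          have hpos : 0 < |x - y| - 1 := by
            by_contra hcon
            push Not at hcon
            have := abs_le.mp (by linarith : |x - y| ≤ 1)
            exact hy ⟨by linarith [this.2], by linarith [this.1]⟩
          filter_upwards [h3.eventually (gt_mem_nhds hpos)] with n hn hyn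
          exfalso
          have : |x - y| ≤ 1 + 2 * (1 / ((n : ℝ) + 1)) := abs_le.mpr ⟨by linarith [hyn.2], by linarith [hyn.1]⟩
          linarith
      obtain ⟨n, hn⟩ := ((Filter.eventually_all_finset η.pts).mpr h2).exists
      refine (h1 n).trans ?_
      unfold Cfg.cnt
      refine Set.ncard_le_ncard ?_ (η.pts.finite_toSet.subset inter_subset_left)
      rintro y ⟨hy1, hy2⟩
      exact ⟨hy1, hn y hy1 hy2⟩
  rw [e]
  refine MeasurableSet.iInter fun n => MeasurableSet.iUnion fun r => MeasurableSet.inter ?_ ?_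
  · have hm : Measurable fun q : ℝ × Cfg => |q.1 - (r : ℝ)| := (measurable_fst.sub_const _).abs
    exact hm measurableSet_Iic
  · have hm : Measurable fun q : ℝ × Cfg => q.2.cnt (Icc ((r : ℝ) - 1 - 1 / ((n : ℝ) + 1)) ((r : ℝ) + 1 + 1 / ((n : ℝ) + 1))) :=
      (meas_cnt _ measurableSet_Icc).comp measurable_snd
    exact hm (MeasurableSet.of_discrete (s := {j : ℕ | k ≤ j}))

theorem near_one {x : ℝ} {η : Cfg} (h : ∃ y ∈ η.pts, |x - y| ≤ 1) : near 1 x η = 1 := by
  unfold near
  rw [if_pos]
  obtain ⟨y, hy, hxy⟩ := h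
  rw [abs_le] at hxy
  exact cnt_pos.mpr ⟨y, hy, by linarith [hxy.2], by linarith [hxy.1]⟩

theorem near_zero {x : ℝ} {η : Cfg} (h : ∀ y ∈ η.pts, 1 < |x - y|) : near 1 x η = 0 ∧ near 2 x η = 0 := by
  have h1 : ¬ 1 ≤ η.cnt (Icc (x - 1) (x + 1)) := by
    rw [cnt_pos]
    rintro ⟨y, hy, h1, h2⟩
    have := h y hy
    have h3 : |x - y| ≤ 1 := abs_le.mpr ⟨by linarith, by linarith⟩
    linarith
  unfold near
  rw [if_neg h1, if_neg (by omega)]
  exact ⟨rfl, rfl⟩

theorem near_two {x a b : ℝ} {η : Cfg} (ha : a ∈ η.pts) (hb : b ∈ η.pts) (hab : a ≠ b) (h1 : |x - a| ≤ 1) (h2 : |x - b| ≤ 1) :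
    near 2 x η = 1 := by
  unfold near
  rw [abs_le] at h1 h2
  rw [if_pos]
  exact cnt_two.mpr ⟨a, ha, b, hb, ⟨by linarith [h1.2], by linarith [h1.1]⟩, ⟨by linarith [h2.2], by linarith [h2.1]⟩, hab⟩

theorem near_two_zero {x a : ℝ} {η : Cfg} (h : ∀ y ∈ η.pts, y ≠ a → 1 < |x - y|) : near 2 x η = 0 := by
  unfold near
  rw [if_neg]
  rw [cnt_two]
  rintro ⟨y, hy, z, hz, h1, h2, h3⟩
  have hy' : |x - y| ≤ 1 := abs_le.mpr ⟨by linarith [h1.2], by linarith [h1.1]⟩
  have hz' : |x - z| ≤ 1 := abs_le.mpr ⟨by linarith [h2.2], by linarith [h2.1]⟩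
  by_cases hya : y = a
  · by_cases hza : z = a
    · exact h3 (hya.trans hza.symm)
    · linarith [h z hz hza]
  · linarith [h y hy hya]

theorem near_21 (x : ℝ) (η : Cfg) : near 2 x η ≤ near 1 x η := by
  unfold near
  split_ifs <;> first | omega | norm_num

theorem rate_admissible {M m : ℝ} (hM : 0 ≤ M) (hm : 0 < m) : Admissible (rate M m) where
  nonneg x η := by
    unfold rate
    have := near_nonneg 2 x η
    have := near_nonneg 1 x η
    positivity
  meas := ((near_meas 2).const_mul M).add ((near_meas 1).const_mul m)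
  dom := by
    refine ⟨fun x => (Icc (-1 : ℝ) 1).indicator (fun _ => M + m) x, fun x => indicator_nonneg (fun _ _ => by positivity) x, ⟨1, one_pos, ?_⟩, ?_⟩
    · have e : (fun x : ℝ => Real.exp (1 * |x|) * (Icc (-1 : ℝ) 1).indicator (fun _ => M + m) x) =
          (Icc (-1 : ℝ) 1).indicator (fun x => Real.exp (1 * |x|) * (M + m)) := by
        funext x
        by_cases hx : x ∈ Icc (-1 : ℝ) 1
        · rw [indicator_of_mem hx, indicator_of_mem hx]
        · rw [indicator_of_notMem hx, indicator_of_notMem hx, mul_zero]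
      rw [e, integrable_indicator_iff measurableSet_Icc]
      exact Continuous.integrableOn_Icc (by fun_prop)
    · intro x η
      have h1 : near 1 x η ≤ ∑ y ∈ η.pts, (Icc (-1 : ℝ) 1).indicator (fun _ => (1 : ℝ)) (x - y) := by
        by_cases h : ∃ y ∈ η.pts, |x - y| ≤ 1
        · obtain ⟨y, hy, hxy⟩ := h
          refine (near_le_one 1 x η).trans ?_
          have := Finset.single_le_sum (f := fun y => (Icc (-1 : ℝ) 1).indicator (fun _ => (1 : ℝ)) (x - y))
            (fun z _ => indicator_nonneg (fun _ _ => zero_le_one) _) hy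
          refine le_trans ?_ this
          show 1 ≤ (Icc (-1 : ℝ) 1).indicator (fun _ => (1 : ℝ)) (x - y)
          rw [abs_le] at hxy
          rw [indicator_of_mem (show x - y ∈ Icc (-1 : ℝ) 1 from ⟨hxy.1, hxy.2⟩)]
        · push Not at h
          rw [(near_zero h).1]
          exact Finset.sum_nonneg fun y _ => indicator_nonneg (fun _ _ => zero_le_one) _
      have h2 : ∑ y ∈ η.pts, (Icc (-1 : ℝ) 1).indicator (fun _ => M + m) (x - y) =
          (M + m) * ∑ y ∈ η.pts, (Icc (-1 : ℝ) 1).indicator (fun _ => (1 : ℝ)) (x - y) := by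
        rw [Finset.mul_sum]
        refine Finset.sum_congr rfl fun y _ => ?_
        by_cases hx : (x - y) ∈ Icc (-1 : ℝ) 1
        · rw [indicator_of_mem hx, indicator_of_mem hx, mul_one]
        · rw [indicator_of_notMem hx, indicator_of_notMem hx, mul_zero]
      show rate M m x η ≤ ∑ y ∈ η.pts, (Icc (-1 : ℝ) 1).indicator (fun _ => M + m) (x - y)
      rw [h2]
      unfold rate
      have h3 := near_21 x η
      nlinarith [mul_le_mul_of_nonneg_left (h3.trans h1) hM, mul_le_mul_of_nonneg_left h1 hm.le]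
  mono x η ζ h := by
    unfold rate
    exact add_le_add (mul_le_mul_of_nonneg_left (near_mono 2 x h) hM) (mul_le_mul_of_nonneg_left (near_mono 1 x h) hm.le)
  transl x y η := by unfold rate; rw [near_transl, near_transl]
  lower := ⟨1, one_pos, m, hm, fun x η h => by
    unfold rate
    rw [near_one h, mul_one]
    have := near_nonneg 2 x η
    nlinarith [mul_nonneg hM this]⟩

/-- the rate `M` only acts when there are two particles -/
noncomputable def M2 (M : ℝ) (η : Cfg) : ℝ := if η.pts.card ≤ 1 then 0 else M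

theorem ae_lemma (M m : ℝ) {η : Cfg} (hne : η.pts.Nonempty) (hD : D η ≤ 1) (ψ : ℝ → ℝ → ℝ) :
    ∀ᵐ x, (ψ (F (η.add x)) (D (η.add x)) - ψ (F η) (D η)) * rate M m x η =
      (Ioo (F η) (F η + 1)).indicator (fun x => m * (ψ x (x - F η) - ψ (F η) (D η))) x +
      (Ioo (F η) (G η + 1)).indicator (fun x => M * (ψ x (x - F η) - ψ (F η) (D η))) x +
      (Ioo (G η) (F η)).indicator (fun x => (m + M2 M η) * (ψ (F η) (F η - x) - ψ (F η) (D η))) x := by
  classical
  have hfin : ((({F η, G η, F η + 1, G η + 1} : Finset ℝ) ∪ η.pts : Finset ℝ) : Set ℝ).Countable := Finset.countable_toSet _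
  filter_upwards [hfin.ae_notMem volume] with x hx
  simp only [Finset.coe_union, Finset.coe_insert, Finset.coe_singleton, mem_union, mem_insert_iff, mem_singleton_iff, Finset.mem_coe, not_or] at hx
  obtain ⟨⟨hxF, hxG, hxF1, hxG1⟩, hxη⟩ := hx
  have hGF := G_lt_F η hne
  have hDe : D η = F η - G η := rfl
  have hFm := F_mem hne
  rcases lt_or_gt_of_ne hxF with h1 | h1
  · rcases lt_or_gt_of_ne hxG with h2 | h2
    · -- left
      rw [indicator_of_notMem (by simp only [mem_Ioo]; intro h; linarith [h.1]), indicator_of_notMem (by simp only [mem_Ioo]; intro h; linarith [h.1]),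
        indicator_of_notMem (by simp only [mem_Ioo]; intro h; linarith [h.1])]
      rcases cases_top η hne with ⟨a, ha⟩ | ⟨a, b, hab⟩
      · rw [F_single ha] at h1
        rw [G_single ha] at h2
        have hz : ∀ y ∈ η.pts, 1 < |x - y| := by
          intro y hy
          rw [ha, Finset.mem_singleton] at hy
          rw [hy, lt_abs]
          right; linarith
        unfold rate
        rw [(near_zero hz).1, (near_zero hz).2]
        ring
      · rw [hab.G_eq] at h2
        have := add_left hab h2
        unfold D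
        rw [this.F_eq, this.G_eq, hab.F_eq, hab.G_eq]
        ring
    · -- middle
      rw [indicator_of_notMem (by simp only [mem_Ioo]; intro h; linarith [h.1]), indicator_of_notMem (by simp only [mem_Ioo]; intro h; linarith [h.1]),
        indicator_of_mem (show x ∈ Ioo (G η) (F η) from ⟨h2, h1⟩)]
      have ht := add_mid hne h2 h1
      have hF' : F (η.add x) = F η := ht.F_eq
      have hD' : D (η.add x) = F η - x := by unfold D; rw [ht.F_eq, ht.G_eq]
      rw [hF', hD']
      have hn1 : near 1 x η = 1 := near_one ⟨F η, hFm, abs_le.mpr ⟨by linarith, by linarith⟩⟩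
      rcases cases_top η hne with ⟨a, ha⟩ | ⟨a, b, hab⟩
      · have hn2 : near 2 x η = 0 := near_two_zero (a := a) (fun y hy hya => by
          rw [ha, Finset.mem_singleton] at hy
          exact absurd hy hya)
        unfold rate M2
        rw [hn1, hn2, if_pos (by rw [ha, Finset.card_singleton])]
        ring
      · have hn2 : near 2 x η = 1 := by
          rw [hab.F_eq] at h1 hGF
          rw [hab.G_eq] at h2 hGF
          rw [hDe, hab.F_eq, hab.G_eq] at hD
          exact near_two hab.1 hab.2.1 hab.2.2.1.ne' (abs_le.mpr ⟨by linarith, by linarith⟩) (abs_le.mpr ⟨by linarith, by linarith⟩)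
        unfold rate M2
        rw [hn1, hn2, if_neg hab.card]
        ring
  · -- right
    have ht := add_right hne h1
    have hF' : F (η.add x) = x := ht.F_eq
    have hD' : D (η.add x) = x - F η := by unfold D; rw [ht.F_eq, ht.G_eq]
    rw [hF', hD', indicator_of_notMem (s := Ioo (G η) (F η)) (by simp only [mem_Ioo]; intro h; linarith [h.2])]
    rcases lt_or_gt_of_ne hxF1 with h2 | h2
    · rw [indicator_of_mem (show x ∈ Ioo (F η) (F η + 1) from ⟨h1, h2⟩)]
      have hn1 : near 1 x η = 1 := near_one ⟨F η, hFm, abs_le.mpr ⟨by linarith, by linarith⟩⟩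
      rcases lt_or_gt_of_ne hxG1 with h3 | h3
      · rw [indicator_of_mem (show x ∈ Ioo (F η) (G η + 1) from ⟨h1, h3⟩)]
        have hn2 : near 2 x η = 1 := by
          rcases cases_top η hne with ⟨a, ha⟩ | ⟨a, b, hab⟩
          · rw [G_single ha] at h3
            rw [F_single ha] at h1
            linarith
          · rw [hab.F_eq] at h1 h2 hGF
            rw [hab.G_eq] at h3 hGF
            exact near_two hab.1 hab.2.1 hab.2.2.1.ne' (abs_le.mpr ⟨by linarith, by linarith⟩) (abs_le.mpr ⟨by linarith, by linarith⟩)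
        unfold rate
        rw [hn1, hn2]
        ring
      · rw [indicator_of_notMem (s := Ioo (F η) (G η + 1)) (by simp only [mem_Ioo]; intro h; linarith [h.2])]
        have hn2 : near 2 x η = 0 := by
          refine near_two_zero (a := F η) (fun y hy hya => ?_)
          rcases cases_top η hne with ⟨a, ha⟩ | ⟨a, b, hab⟩
          · rw [ha, Finset.mem_singleton] at hy
            rw [F_single ha] at hya
            exact absurd hy hya
          · rw [hab.G_eq] at h3
            rw [hab.F_eq] at hya
            have := (hab.2.2.2 y hy).resolve_left hya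
            rw [lt_abs]; left; linarith
        unfold rate
        rw [hn1, hn2]
        ring
    · rw [indicator_of_notMem (s := Ioo (F η) (F η + 1)) (by simp only [mem_Ioo]; intro h; linarith [h.2]),
        indicator_of_notMem (s := Ioo (F η) (G η + 1)) (by simp only [mem_Ioo]; intro h; linarith [h.2])]
      have hz : ∀ y ∈ η.pts, 1 < |x - y| := by
        intro y hy
        have := le_F hy
        rw [lt_abs]
        left; linarith
      unfold rate
      rw [(near_zero hz).1, (near_zero hz).2]
      ring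

/-- the generator on functions of the two top particles -/
theorem gen_eq (M m : ℝ) {η : Cfg} (hne : η.pts.Nonempty) (hD : D η ≤ 1) (ψ : ℝ → ℝ → ℝ)
    (h1 : Continuous fun u => ψ (F η + u) u) (h2 : Continuous fun u => ψ (F η) u) :
    gen (rate M m) (fun ζ => ψ (F ζ) (D ζ)) η =
      m * (∫ u in (0 : ℝ)..1, (ψ (F η + u) u - ψ (F η) (D η))) +
      M * (∫ u in (0 : ℝ)..(1 - D η), (ψ (F η + u) u - ψ (F η) (D η))) +
      (m + M2 M η) * (∫ u in (0 : ℝ)..(D η), (ψ (F η) u - ψ (F η) (D η))) := by
  unfold gen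
  rw [integral_congr_ae (ae_lemma M m hne hD ψ)]
  have hGF := G_lt_F η hne
  have hDe : D η = F η - G η := rfl
  have c1 : Continuous fun x => ψ x (x - F η) - ψ (F η) (D η) := by
    have : Continuous fun x => ψ (F η + (x - F η)) (x - F η) := h1.comp (continuous_id.sub continuous_const)
    simp only [add_sub_cancel] at this
    exact this.sub continuous_const
  have c2 : Continuous fun x => ψ (F η) (F η - x) - ψ (F η) (D η) := (h2.comp (continuous_const.sub continuous_id)).sub continuous_const
  have i1 : Integrable ((Ioo (F η) (F η + 1)).indicator (fun x => m * (ψ x (x - F η) - ψ (F η) (D η)))) := by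
    rw [integrable_indicator_iff measurableSet_Ioo]
    exact ((continuous_const.mul c1).integrableOn_Icc).mono_set Ioo_subset_Icc_self
  have i2 : Integrable ((Ioo (F η) (G η + 1)).indicator (fun x => M * (ψ x (x - F η) - ψ (F η) (D η)))) := by
    rw [integrable_indicator_iff measurableSet_Ioo]
    exact ((continuous_const.mul c1).integrableOn_Icc).mono_set Ioo_subset_Icc_self
  have i3 : Integrable ((Ioo (G η) (F η)).indicator (fun x => (m + M2 M η) * (ψ (F η) (F η - x) - ψ (F η) (D η)))) := by
    rw [integrable_indicator_iff measurableSet_Ioo]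
    exact ((continuous_const.mul c2).integrableOn_Icc).mono_set Ioo_subset_Icc_self
  have i12 : Integrable (fun x => (Ioo (F η) (F η + 1)).indicator (fun x => m * (ψ x (x - F η) - ψ (F η) (D η))) x +
      (Ioo (F η) (G η + 1)).indicator (fun x => M * (ψ x (x - F η) - ψ (F η) (D η))) x) := i1.add i2
  rw [integral_add i12 i3, integral_add i1 i2, integral_indicator measurableSet_Ioo, integral_indicator measurableSet_Ioo,
    integral_indicator measurableSet_Ioo, ← integral_Ioc_eq_integral_Ioo, ← integral_Ioc_eq_integral_Ioo, ← integral_Ioc_eq_integral_Ioo,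
    ← intervalIntegral.integral_of_le (by linarith), ← intervalIntegral.integral_of_le (by linarith), ← intervalIntegral.integral_of_le hGF.le,
    intervalIntegral.integral_const_mul, intervalIntegral.integral_const_mul, intervalIntegral.integral_const_mul]
  have s1 : ∀ y : ℝ, ∫ x in (F η)..y, (ψ x (x - F η) - ψ (F η) (D η)) = ∫ u in (0 : ℝ)..(y - F η), (ψ (F η + u) u - ψ (F η) (D η)) := by
    intro y
    have := intervalIntegral.integral_comp_sub_right (a := F η) (b := y) (fun u => ψ (F η + u) u - ψ (F η) (D η)) (F η)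
    simp only [add_sub_cancel, sub_self] at this
    exact this
  have s2 : ∫ x in (G η)..(F η), (ψ (F η) (F η - x) - ψ (F η) (D η)) = ∫ u in (0 : ℝ)..(D η), (ψ (F η) u - ψ (F η) (D η)) := by
    have := intervalIntegral.integral_comp_sub_left (a := G η) (b := F η) (fun u => ψ (F η) u - ψ (F η) (D η)) (F η)
    simp only [sub_self] at this
    exact this
  rw [s1, s1, s2, add_sub_cancel_left, show G η + 1 - F η = 1 - D η by rw [hDe]; ring]

end Pool.Agent.R928.BP
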