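import Pool.Agent.R928.BP.Proc

/-! Bounds for the speed. -/

set_option autoImplicit false
set_option linter.all false

open MeasureTheory Set Filter Topology

namespace Pool.Agent.R928.BP

section proc

variable {Ω : Type} [MeasurableSpace Ω] {P : Measure Ω} [IsProbabilityMeasure P] {b : ℝ → Cfg → ℝ} {η : ℝ → Ω → Cfg}
  (H : IsBirthProcess P b η)

include H

theorem dynkin {f : Cfg → ℝ} (hf : Measurable f) (hb : ∃ C, ∀ ζ, |f ζ| ≤ C) {t : ℝ} (ht : 0 ≤ t) :
    (∀ u ∈ Icc 0 t, Integrable (fun ω => gen b f (η u ω)) P) ∧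
    IntervalIntegrable (fun u => ∫ ω, gen b f (η u ω) ∂P) volume 0 t ∧
    ∫ ω, f (η t ω) ∂P - ∫ ω, f (η 0 ω) ∂P = ∫ u in (0 : ℝ)..t, ∫ ω, gen b f (η u ω) ∂P := by
  have h := H.mart f hf hb 0 t le_rfl ht univ (@MeasurableSet.univ Ω (past η 0))
  simp only [setIntegral_univ] at h
  exact h

theorem mem0 : ∀ᵐ ω ∂P, ∀ t, 0 ≤ t → (0 : ℝ) ∈ (η t ω).pts := by
  filter_upwards [H.init, H.mono] with ω h1 h2 t ht
  apply h2 0 t le_rfl ht
  rw [h1]; exact Finset.mem_singleton_self _

theorem comp_int {f : Cfg → ℝ} (hf : Measurable f) {C : ℝ} (hC : ∀ ζ, |f ζ| ≤ C) {t : ℝ} (ht : 0 ≤ t) : Integrable (fun ω => f (η t ω)) P :=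
  Integrable.of_bound (hf.comp (H.meas t ht)).aestronglyMeasurable C (Eventually.of_forall fun ω => by rw [Real.norm_eq_abs]; exact hC _)

end proc

section proc2

variable {Ω : Type} [MeasurableSpace Ω] {P : Measure Ω} [IsProbabilityMeasure P] {M m : ℝ} {η : ℝ → Ω → Cfg}
  (H : IsBirthProcess P (rate M m) η) (hM : 0 ≤ M) (hm : 0 < m)

include H hM hm in
theorem D_le {t : ℝ} (ht : 0 ≤ t) : ∀ᵐ ω ∂P, D (η t ω) ≤ 1 := by
  obtain ⟨f, hf⟩ : ∃ f : Cfg → ℝ, f = fun ζ => if 1 < D ζ then 1 else 0 := ⟨_, rfl⟩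
  have hfm : Measurable f := by
    rw [hf]
    exact Measurable.ite (meas_D measurableSet_Ioi) measurable_const measurable_const
  have hf0 : ∀ ζ, 0 ≤ f ζ := by intro ζ; rw [hf]; dsimp only; split_ifs <;> norm_num
  have hf1 : ∀ ζ, f ζ ≤ 1 := by intro ζ; rw [hf]; dsimp only; split_ifs <;> norm_num
  have hfb : ∀ ζ, |f ζ| ≤ 1 := fun ζ => abs_le.mpr ⟨by linarith [hf0 ζ], hf1 ζ⟩
  obtain ⟨h1, h2, h3⟩ := dynkin H hfm ⟨1, hfb⟩ ht
  have hgen : ∀ ζ : Cfg, ζ.pts.Nonempty → gen (rate M m) f ζ ≤ 0 := by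
    intro ζ hζ
    unfold gen
    by_cases hD : D ζ ≤ 1
    · have := ae_lemma M m hζ hD (fun _ d => if 1 < d then (1 : ℝ) else 0)
      apply integral_nonpos_of_ae
      filter_upwards [this] with x hx
      have e : (f (ζ.add x) - f ζ) * rate M m x ζ = ((if 1 < D (ζ.add x) then (1 : ℝ) else 0) - (if 1 < D ζ then (1 : ℝ) else 0)) * rate M m x ζ := by
        rw [hf]
      rw [e, hx]
      have hDe : D ζ = F ζ - G ζ := rfl
      have hGF := G_lt_F ζ hζ
      have t1 : (Ioo (F ζ) (F ζ + 1)).indicator (fun x => m * ((if 1 < x - F ζ then (1 : ℝ) else 0) - (if 1 < D ζ then (1 : ℝ) else 0))) x ≤ 0 := by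
        apply indicator_nonpos
        intro y hy
        rw [if_neg (by linarith [hy.2]), if_neg (by linarith)]; simp
      have t2 : (Ioo (F ζ) (G ζ + 1)).indicator (fun x => M * ((if 1 < x - F ζ then (1 : ℝ) else 0) - (if 1 < D ζ then (1 : ℝ) else 0))) x ≤ 0 := by
        apply indicator_nonpos
        intro y hy
        rw [if_neg (by linarith [hy.2]), if_neg (by linarith)]; simp
      have t3 : (Ioo (G ζ) (F ζ)).indicator (fun x => (m + M2 M ζ) * ((if 1 < F ζ - x then (1 : ℝ) else 0) - (if 1 < D ζ then (1 : ℝ) else 0))) x ≤ 0 := by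
        apply indicator_nonpos
        intro y hy
        rw [if_neg (by linarith [hy.1]), if_neg (by linarith)]; simp
      show _ ≤ (0 : ℝ)
      linarith
    · apply integral_nonpos
      intro x
      have h5 : f ζ = 1 := by rw [hf]; exact if_pos (not_le.mp hD)
      have h6 := (rate_admissible hM hm).nonneg x ζ
      show (f (ζ.add x) - f ζ) * rate M m x ζ ≤ 0
      rw [h5]
      exact mul_nonpos_of_nonpos_of_nonneg (by linarith [hf1 (ζ.add x)]) h6
  have h4 : ∫ u in (0 : ℝ)..t, ∫ ω, gen (rate M m) f (η u ω) ∂P ≤ 0 := by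
    have : ∫ u in (0 : ℝ)..t, ∫ ω, gen (rate M m) f (η u ω) ∂P ≤ ∫ _u in (0 : ℝ)..t, (0 : ℝ) := by
      refine intervalIntegral.integral_mono_on ht h2 (by simp) fun u hu => ?_
      apply integral_nonpos_of_ae
      filter_upwards [mem0 H] with ω hω
      exact hgen _ ⟨0, hω u hu.1⟩
    simpa using this
  have h5 : ∫ ω, f (η 0 ω) ∂P = 0 := by
    rw [integral_eq_zero_of_ae]
    filter_upwards [H.init] with ω hω
    show f (η 0 ω) = 0
    rw [hf]
    apply if_neg
    unfold D
    rw [F_single hω, G_single hω]; norm_num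
  have h6 : ∫ ω, f (η t ω) ∂P = 0 := by
    apply le_antisymm (by linarith)
    exact integral_nonneg fun ω => hf0 _
  rw [integral_eq_zero_iff_of_nonneg (fun ω => hf0 _) (comp_int H hfm hfb ht)] at h6
  filter_upwards [h6] with ω hω
  by_contra hcon
  push Not at hcon
  have h7 : f (η t ω) = 1 := by rw [hf]; exact if_pos hcon
  have h8 : f (η t ω) = 0 := hω
  linarith

include H hM hm in
theorem good_ae {t : ℝ} (ht : 0 ≤ t) : ∀ᵐ ω ∂P, Good (η t ω) := by
  filter_upwards [mem0 H, D_le H hM hm ht] with ω h1 h2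
  exact ⟨h1 t ht, h2⟩

/-- indicator of at most one particle -/
noncomputable def one1 (ζ : Cfg) : ℝ := if ζ.pts.card ≤ 1 then 1 else 0

theorem one1_meas : Measurable one1 :=
  Measurable.ite (meas_card (MeasurableSet.of_discrete (s := {n : ℕ | n ≤ 1}))) measurable_const measurable_const

theorem one1_nonneg (ζ : Cfg) : 0 ≤ one1 ζ := by unfold one1; split_ifs <;> norm_num

theorem one1_le (ζ : Cfg) : one1 ζ ≤ 1 := by unfold one1; split_ifs <;> norm_num

theorem one1_abs (ζ : Cfg) : |one1 ζ| ≤ 1 := abs_le.mpr ⟨by linarith [one1_nonneg ζ], one1_le ζ⟩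

theorem gen_one {M m : ℝ} {ζ : Cfg} (hζ : ζ.pts.Nonempty) : gen (rate M m) one1 ζ = -(2 * m) * one1 ζ := by
  classical
  unfold gen
  rcases cases_top ζ hζ with ⟨a, ha⟩ | ⟨a, b, hab⟩
  · have h1 : one1 ζ = 1 := by unfold one1; rw [if_pos (by rw [ha, Finset.card_singleton])]
    have h2 : ∀ᵐ x : ℝ, (one1 (ζ.add x) - one1 ζ) * rate M m x ζ = (Icc (a - 1) (a + 1)).indicator (fun _ => -m) x := by
      filter_upwards [(Set.countable_singleton a).ae_notMem volume] with x hx
      have hxa : x ≠ a := hx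
      have h3 : one1 (ζ.add x) = 0 := by
        unfold one1 Cfg.add
        rw [if_neg]
        show ¬ (insert x ζ.pts).card ≤ 1
        rw [ha, Finset.card_insert_of_notMem (by rw [Finset.mem_singleton]; exact hxa), Finset.card_singleton]
        norm_num
      have h4 : near 2 x ζ = 0 := near_two_zero (a := a) (fun y hy hya => by
        rw [ha, Finset.mem_singleton] at hy
        exact absurd hy hya)
      unfold rate
      rw [h1, h3, h4]
      by_cases hx1 : x ∈ Icc (a - 1) (a + 1)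
      · rw [indicator_of_mem hx1, near_one ⟨a, by rw [ha]; exact Finset.mem_singleton_self _, abs_le.mpr ⟨by linarith [hx1.1], by linarith [hx1.2]⟩⟩]
        ring
      · rw [indicator_of_notMem hx1, (near_zero (fun y hy => ?_)).1]
        · ring
        · rw [ha, Finset.mem_singleton] at hy
          rw [hy]
          by_contra hcon
          push Not at hcon
          have := abs_le.mp hcon
          exact hx1 ⟨by linarith [this.1], by linarith [this.2]⟩
    rw [integral_congr_ae h2, integral_indicator measurableSet_Icc, setIntegral_const, h1]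
    simp only [measureReal_def, Real.volume_Icc, smul_eq_mul]
    rw [ENNReal.toReal_ofReal (by linarith)]
    ring
  · have h1 : one1 ζ = 0 := by unfold one1; rw [if_neg hab.card]
    have h2 : ∀ x : ℝ, one1 (ζ.add x) = 0 := by
      intro x
      unfold one1
      rw [if_neg]
      intro hc
      apply hab.card
      refine le_trans (Finset.card_le_card ?_) hc
      intro y hy
      exact mem_add.mpr (Or.inr hy)
    rw [h1]
    simp [h2]

include H hm in
theorem one_int {t : ℝ} (ht : 0 ≤ t) : IntervalIntegrable (fun u => ∫ ω, one1 (η u ω) ∂P) volume 0 t ∧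
    ∫ u in (0 : ℝ)..t, ∫ ω, one1 (η u ω) ∂P ≤ 1 / (2 * m) := by
  obtain ⟨h1, h2, h3⟩ := dynkin H one1_meas ⟨1, one1_abs⟩ ht
  have e : ∀ u ∈ Icc 0 t, ∫ ω, gen (rate M m) one1 (η u ω) ∂P = -(2 * m) * ∫ ω, one1 (η u ω) ∂P := by
    intro u hu
    rw [← integral_const_mul]
    apply integral_congr_ae
    filter_upwards [mem0 H] with ω hω
    exact gen_one ⟨0, hω u hu.1⟩
  have h4 : IntervalIntegrable (fun u => -(2 * m) * ∫ ω, one1 (η u ω) ∂P) volume 0 t := by
    refine h2.congr_ae ?_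
    rw [uIoc_of_le ht, Filter.EventuallyEq, ae_restrict_iff' measurableSet_Ioc]
    exact Eventually.of_forall fun u hu => e u ⟨hu.1.le, hu.2⟩
  have h5 : IntervalIntegrable (fun u => ∫ ω, one1 (η u ω) ∂P) volume 0 t := by
    have := h4.const_mul (-(2 * m))⁻¹
    refine this.congr_ae (Eventually.of_forall fun u => ?_)
    show (-(2 * m))⁻¹ * (-(2 * m) * ∫ ω, one1 (η u ω) ∂P) = _
    rw [← mul_assoc, inv_mul_cancel₀ (by linarith), one_mul]
  refine ⟨h5, ?_⟩
  have h6 : ∫ u in (0 : ℝ)..t, ∫ ω, gen (rate M m) one1 (η u ω) ∂P = -(2 * m) * ∫ u in (0 : ℝ)..t, ∫ ω, one1 (η u ω) ∂P := by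
    rw [← intervalIntegral.integral_const_mul]
    refine intervalIntegral.integral_congr fun u hu => ?_
    rw [uIcc_of_le ht] at hu
    exact e u hu
  rw [h6] at h3
  have h7 : ∫ ω, one1 (η 0 ω) ∂P ≤ 1 := by
    have : ∫ ω, one1 (η 0 ω) ∂P ≤ ∫ _ω, (1 : ℝ) ∂P := integral_mono (comp_int H one1_meas one1_abs le_rfl) (integrable_const _) fun ω => one1_le _
    simpa using this
  have h8 : 0 ≤ ∫ ω, one1 (η t ω) ∂P := integral_nonneg fun ω => one1_nonneg _
  rw [le_div_iff₀ (by positivity)]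
  nlinarith

/-! ### the functional -/

variable {k : ℝ → ℝ} (hkc : Continuous k) (hk : ∀ d, |k d| ≤ 1)

/-- the functional of a configuration -/
noncomputable def fun1 (lam : ℝ) (k : ℝ → ℝ) (ζ : Cfg) : ℝ := psi lam k (F ζ) (D ζ)

include hkc in
theorem fun1_meas (lam : ℝ) : Measurable (fun1 lam k) := by
  unfold fun1 psi
  exact (((meas_F.max measurable_const).add (hkc.measurable.comp meas_D)).const_mul lam).neg.exp

include hk in
theorem fun1_abs {lam : ℝ} (hl : 0 ≤ lam) (ζ : Cfg) : |fun1 lam k ζ| ≤ Real.exp lam := by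
  unfold fun1
  rw [abs_of_pos (psi_pos _ _ _ _)]
  exact psi_le hl hk _ _

/-- the mean -/
noncomputable def phi (P : Measure Ω) (η : ℝ → Ω → Cfg) (lam : ℝ) (k : ℝ → ℝ) (t : ℝ) : ℝ := ∫ ω, fun1 lam k (η t ω) ∂P

include H hkc hk in
theorem phi0_ge {lam : ℝ} (hl : 0 ≤ lam) : Real.exp (-lam) ≤ phi P η lam k 0 := by
  have : ∫ _ω, Real.exp (-lam) ∂P ≤ phi P η lam k 0 := by
    refine integral_mono_ae (integrable_const _) (comp_int H (fun1_meas hkc lam) (fun1_abs hk hl) le_rfl) ?_
    filter_upwards [H.init] with ω hω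
    unfold fun1 psi
    apply Real.exp_le_exp.mpr
    rw [F_single hω]
    have := (abs_le.mp (hk (D (η 0 ω)))).2
    rw [max_self]
    nlinarith
  simpa using this

include H hkc hk in
theorem phi_le {lam : ℝ} (hl : 0 ≤ lam) {t : ℝ} (ht : 0 ≤ t) : phi P η lam k t ≤ Real.exp lam := by
  have : phi P η lam k t ≤ ∫ _ω, Real.exp lam ∂P :=
    integral_mono (comp_int H (fun1_meas hkc lam) (fun1_abs hk hl) ht) (integrable_const _) fun ω => psi_le hl hk _ _
  simpa using this

include H hM hm hkc hk in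
/-- lower bound of the mean -/
theorem phi_lower {lam : ℝ} (hl : 0 ≤ lam) {c : ℝ} (hc : 0 ≤ c) (hL : ∀ ζ, Good ζ → Lam M m k ζ ≤ c) {t : ℝ} (ht : 0 ≤ t) :
    Real.exp (-lam) - lam * c * Real.exp lam * t ≤ phi P η lam k t := by
  obtain ⟨h1, h2, h3⟩ := dynkin H (fun1_meas hkc lam) ⟨_, fun1_abs hk hl⟩ ht
  have h4 : ∫ _u in (0 : ℝ)..t, (-(lam * c * Real.exp lam)) ≤ ∫ u in (0 : ℝ)..t, ∫ ω, gen (rate M m) (fun1 lam k) (η u ω) ∂P := by
    refine intervalIntegral.integral_mono_on ht (by simp) h2 fun u hu => ?_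
    have : ∫ _ω, (-(lam * c * Real.exp lam)) ∂P ≤ ∫ ω, gen (rate M m) (fun1 lam k) (η u ω) ∂P := by
      refine integral_mono_ae (integrable_const _) (h1 u hu) ?_
      filter_upwards [good_ae H hM hm hu.1] with ω hω
      have h5 := gen_lower (lam := lam) hM hm.le hkc hω
      have h6 := hL _ hω
      have h7 := psi_le hl hk (F (η u ω)) (D (η u ω))
      have h8 := psi_pos lam k (F (η u ω)) (D (η u ω))
      refine le_trans ?_ h5
      have h9 : psi lam k (F (η u ω)) (D (η u ω)) * Lam M m k (η u ω) ≤ Real.exp lam * c := by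
        refine (mul_le_mul_of_nonneg_left h6 h8.le).trans (mul_le_mul_of_nonneg_right h7 hc)
      nlinarith
    simpa using this
  rw [intervalIntegral.integral_const, smul_eq_mul] at h4
  have h5 := phi0_ge H hkc hk hl
  unfold phi at h5 ⊢
  nlinarith

include H hM hm hkc hk in
/-- upper bound of the mean -/
theorem phi_upper {lam : ℝ} (hl : 0 ≤ lam) (hl3 : 3 * lam ≤ 1) {c : ℝ} (hc : 0 ≤ c) (hL : ∀ ζ, Good ζ → c * (1 - one1 ζ) ≤ Lam M m k ζ)
    {t : ℝ} (ht : 0 ≤ t) :
    phi P η lam k t ≤ Real.exp lam - lam * c * Real.exp (-lam) * t + lam ^ 2 * c * (3 * (2 * m + 2 * M)) * Real.exp lam * t ^ 2 +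
      lam * c * Real.exp lam * (1 / (2 * m)) + 9 * lam ^ 2 * (2 * m + 2 * M) * Real.exp lam * t := by
  obtain ⟨h1, h2, h3⟩ := dynkin H (fun1_meas hkc lam) ⟨_, fun1_abs hk hl⟩ ht
  obtain ⟨i1, i2⟩ := one_int H hm ht
  obtain ⟨C, hC⟩ : ∃ C, C = 3 * (2 * m + 2 * M) := ⟨_, rfl⟩
  have hC0 : 0 ≤ C := by rw [hC]; linarith
  have h4 : ∀ u ∈ Icc 0 t, ∫ ω, gen (rate M m) (fun1 lam k) (η u ω) ∂P ≤
      (-(lam * c * Real.exp (-lam)) + lam ^ 2 * c * C * Real.exp lam * t + 9 * lam ^ 2 * (2 * m + 2 * M) * Real.exp lam) +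
      (lam * c * Real.exp lam) * ∫ ω, one1 (η u ω) ∂P := by
    intro u hu
    have h5 : ∫ ω, gen (rate M m) (fun1 lam k) (η u ω) ∂P ≤
        ∫ ω, (-(lam * c) * fun1 lam k (η u ω) + (lam * c * Real.exp lam) * one1 (η u ω) + 9 * lam ^ 2 * (2 * m + 2 * M) * Real.exp lam) ∂P := by
      have j1 : Integrable (fun ω => -(lam * c) * fun1 lam k (η u ω) + (lam * c * Real.exp lam) * one1 (η u ω)) P :=
        ((comp_int H (fun1_meas hkc lam) (fun1_abs hk hl) hu.1).const_mul _).add ((comp_int H one1_meas one1_abs hu.1).const_mul _)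
      refine integral_mono_ae (h1 u hu) (j1.add (integrable_const _)) ?_
      filter_upwards [good_ae H hM hm hu.1] with ω hω
      have h5 := gen_upper hM hm.le hl hkc hk hω hl3
      have h6 := hL _ hω
      have h7 := psi_le hl hk (F (η u ω)) (D (η u ω))
      have h8 := psi_pos lam k (F (η u ω)) (D (η u ω))
      have h10 := one1_nonneg (η u ω)
      show gen (rate M m) (fun1 lam k) (η u ω) ≤ _
      refine le_trans h5 ?_
      unfold fun1
      have h11 : 0 ≤ 9 * lam ^ 2 * (2 * m + 2 * M) := by positivity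
      have h12 : psi lam k (F (η u ω)) (D (η u ω)) * (9 * lam ^ 2) * (2 * m + 2 * M) ≤ 9 * lam ^ 2 * (2 * m + 2 * M) * Real.exp lam := by
        nlinarith [mul_le_mul_of_nonneg_left h7 h11]
      have h13 : psi lam k (F (η u ω)) (D (η u ω)) * (c * (1 - one1 (η u ω))) ≤ psi lam k (F (η u ω)) (D (η u ω)) * Lam M m k (η u ω) :=
        mul_le_mul_of_nonneg_left h6 h8.le
      have h14 : c * one1 (η u ω) * psi lam k (F (η u ω)) (D (η u ω)) ≤ c * one1 (η u ω) * Real.exp lam :=
        mul_le_mul_of_nonneg_left h7 (mul_nonneg hc h10)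
      have h15 : psi lam k (F (η u ω)) (D (η u ω)) * (-lam) * Lam M m k (η u ω) ≤
          -(lam * c) * psi lam k (F (η u ω)) (D (η u ω)) + (lam * c * Real.exp lam) * one1 (η u ω) := by
        nlinarith [mul_le_mul_of_nonneg_left h13 hl, mul_le_mul_of_nonneg_left h14 hl]
      linarith
    have j1 : Integrable (fun ω => -(lam * c) * fun1 lam k (η u ω)) P := (comp_int H (fun1_meas hkc lam) (fun1_abs hk hl) hu.1).const_mul _
    have j2 : Integrable (fun ω => (lam * c * Real.exp lam) * one1 (η u ω)) P := (comp_int H one1_meas one1_abs hu.1).const_mul _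
    have j12 : Integrable (fun ω => -(lam * c) * fun1 lam k (η u ω) + (lam * c * Real.exp lam) * one1 (η u ω)) P := j1.add j2
    rw [integral_add j12 (integrable_const _), integral_add j1 j2, integral_const_mul, integral_const_mul] at h5
    have h6 := phi_lower H hM hm hkc hk hl hC0 (fun ζ hζ => by rw [hC]; exact Lam_le hM hm.le hkc hk hζ) hu.1
    have h7 : ∫ _ω, (9 * lam ^ 2 * (2 * m + 2 * M) * Real.exp lam) ∂P = 9 * lam ^ 2 * (2 * m + 2 * M) * Real.exp lam := by simp
    rw [h7] at h5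
    have h8 : lam * c * (lam * C * Real.exp lam * u) ≤ lam * c * (lam * C * Real.exp lam * t) := by
      have hq : 0 ≤ lam * C * Real.exp lam := by positivity
      exact mul_le_mul_of_nonneg_left (mul_le_mul_of_nonneg_left hu.2 hq) (by positivity)
    have h9 : (lam * c) * (Real.exp (-lam) - lam * C * Real.exp lam * u) ≤ (lam * c) * phi P η lam k u := mul_le_mul_of_nonneg_left h6 (by positivity)
    unfold phi at h9
    nlinarith
  have h5 : ∫ u in (0 : ℝ)..t, ∫ ω, gen (rate M m) (fun1 lam k) (η u ω) ∂P ≤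
      ∫ u in (0 : ℝ)..t, ((-(lam * c * Real.exp (-lam)) + lam ^ 2 * c * C * Real.exp lam * t + 9 * lam ^ 2 * (2 * m + 2 * M) * Real.exp lam) +
      (lam * c * Real.exp lam) * ∫ ω, one1 (η u ω) ∂P) :=
    intervalIntegral.integral_mono_on ht h2 (by
      refine IntervalIntegrable.add (by simp) (i1.const_mul _)) h4
  rw [intervalIntegral.integral_add (by simp) (i1.const_mul _), intervalIntegral.integral_const, intervalIntegral.integral_const_mul, smul_eq_mul] at h5
  have h6 := phi_le H hkc hk hl (le_refl (0 : ℝ))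
  have h7 : (lam * c * Real.exp lam) * (∫ u in (0 : ℝ)..t, ∫ ω, one1 (η u ω) ∂P) ≤ (lam * c * Real.exp lam) * (1 / (2 * m)) :=
    mul_le_mul_of_nonneg_left i2 (by positivity)
  rw [← hC]
  unfold phi at h6 ⊢
  nlinarith

end proc2

end Pool.Agent.R928.BP
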