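import Pool.Agent.R928.BP.Defs

/-! The two rightmost particles. -/

set_option autoImplicit false
set_option linter.all false

open MeasureTheory Set Filter Topology

namespace Pool.Agent.R928.BP

/-- `a` and `b` are the two largest points -/
def IsTop (η : Cfg) (a b : ℝ) : Prop := a ∈ η.pts ∧ b ∈ η.pts ∧ b < a ∧ ∀ y ∈ η.pts, y = a ∨ y ≤ b

/-- the largest point -/
noncomputable def F (η : Cfg) : ℝ := sSup (η.pts : Set ℝ)

open Classical in
/-- the second largest point (by convention `F η - 1` if there is at most one point) -/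
noncomputable def G (η : Cfg) : ℝ := if η.pts.card ≤ 1 then F η - 1 else sSup ((η.pts.erase (F η) : Finset ℝ) : Set ℝ)

/-- the gap -/
noncomputable def D (η : Cfg) : ℝ := F η - G η

theorem IsTop.F_eq {η : Cfg} {a b : ℝ} (h : IsTop η a b) : F η = a := by
  refine IsGreatest.csSup_eq ⟨h.1, fun y hy => ?_⟩
  rcases h.2.2.2 y hy with rfl | h1
  · exact le_rfl
  · exact h1.trans h.2.2.1.le

theorem IsTop.card {η : Cfg} {a b : ℝ} (h : IsTop η a b) : ¬ η.pts.card ≤ 1 := by
  rw [Finset.card_le_one]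
  intro hc
  exact h.2.2.1.ne (hc b h.2.1 a h.1)

theorem IsTop.G_eq {η : Cfg} {a b : ℝ} (h : IsTop η a b) : G η = b := by
  unfold G
  rw [if_neg h.card]
  refine IsGreatest.csSup_eq ⟨?_, fun y hy => ?_⟩
  · rw [Finset.mem_coe, Finset.mem_erase, h.F_eq]
    exact ⟨h.2.2.1.ne, h.2.1⟩
  · rw [Finset.mem_coe, Finset.mem_erase, h.F_eq] at hy
    exact (h.2.2.2 y hy.2).resolve_left hy.1

theorem F_single {η : Cfg} {a : ℝ} (h : η.pts = {a}) : F η = a := by
  unfold F; rw [h, Finset.coe_singleton, csSup_singleton]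

theorem G_single {η : Cfg} {a : ℝ} (h : η.pts = {a}) : G η = a - 1 := by
  unfold G; rw [if_pos (by rw [h, Finset.card_singleton]), F_single h]

theorem cases_top (η : Cfg) (h : η.pts.Nonempty) : (∃ a, η.pts = {a}) ∨ ∃ a b, IsTop η a b := by
  classical
  by_cases hc : η.pts.card ≤ 1
  · left
    exact Finset.card_eq_one.mp (le_antisymm hc (Finset.card_pos.mpr h))
  · right
    have h2 : (η.pts.erase (η.pts.max' h)).Nonempty := by
      rw [← Finset.card_pos, Finset.card_erase_of_mem (Finset.max'_mem _ _)]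
      omega
    have hm := Finset.max'_mem _ h2
    rw [Finset.mem_erase] at hm
    refine ⟨η.pts.max' h, (η.pts.erase (η.pts.max' h)).max' h2, Finset.max'_mem _ _, hm.2,
      lt_of_le_of_ne (Finset.le_max' _ _ hm.2) hm.1, fun y hy => ?_⟩
    by_cases hy2 : y = η.pts.max' h
    · exact Or.inl hy2
    · exact Or.inr (Finset.le_max' _ _ (Finset.mem_erase.mpr ⟨hy2, hy⟩))

theorem mem_add {η : Cfg} {x y : ℝ} : y ∈ (η.add x).pts ↔ y = x ∨ y ∈ η.pts := by
  unfold Cfg.add; exact Finset.mem_insert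

theorem le_F {η : Cfg} {y : ℝ} (hy : y ∈ η.pts) : y ≤ F η :=
  le_csSup η.pts.finite_toSet.bddAbove hy

theorem F_mem {η : Cfg} (h : η.pts.Nonempty) : F η ∈ η.pts := by
  rcases cases_top η h with ⟨a, ha⟩ | ⟨a, b, hab⟩
  · rw [F_single ha, ha]; exact Finset.mem_singleton_self _
  · rw [hab.F_eq]; exact hab.1

theorem G_lt_F (η : Cfg) (h : η.pts.Nonempty) : G η < F η := by
  rcases cases_top η h with ⟨a, ha⟩ | ⟨a, b, hab⟩
  · rw [F_single ha, G_single ha]; linarith
  · rw [hab.F_eq, hab.G_eq]; exact hab.2.2.1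

/-- insertion to the right -/
theorem add_right {η : Cfg} (h : η.pts.Nonempty) {x : ℝ} (hx : F η < x) : IsTop (η.add x) x (F η) := by
  refine ⟨mem_add.mpr (Or.inl rfl), mem_add.mpr (Or.inr (F_mem h)), hx, fun y hy => ?_⟩
  rcases mem_add.mp hy with h1 | h1
  · exact Or.inl h1
  · exact Or.inr (le_F h1)

/-- insertion in the middle -/
theorem add_mid {η : Cfg} (h : η.pts.Nonempty) {x : ℝ} (hx : G η < x) (hx2 : x < F η) : IsTop (η.add x) (F η) x := by
  refine ⟨mem_add.mpr (Or.inr (F_mem h)), mem_add.mpr (Or.inl rfl), hx2, fun y hy => ?_⟩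
  rcases mem_add.mp hy with h1 | h1
  · exact Or.inr h1.le
  · rcases cases_top η h with ⟨a, ha⟩ | ⟨a, b, hab⟩
    · rw [ha, Finset.mem_singleton] at h1
      rw [F_single ha]; exact Or.inl h1
    · rw [hab.F_eq]
      rw [hab.G_eq] at hx
      rcases hab.2.2.2 y h1 with h2 | h2
      · exact Or.inl h2
      · exact Or.inr (h2.trans hx.le)

/-- insertion to the left of the two top points -/
theorem add_left {η : Cfg} {a b x : ℝ} (h : IsTop η a b) (hx : x < b) : IsTop (η.add x) a b := by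
  refine ⟨mem_add.mpr (Or.inr h.1), mem_add.mpr (Or.inr h.2.1), h.2.2.1, fun y hy => ?_⟩
  rcases mem_add.mp hy with h1 | h1
  · exact Or.inr (h1.trans_lt hx).le
  · exact h.2.2.2 y h1

/-! ### measurability -/

theorem meas_cnt (B : Set ℝ) (hB : MeasurableSet B) : Measurable fun η : Cfg => η.cnt B := by
  refine measurable_to_countable' fun n => ?_
  exact MeasurableSpace.measurableSet_generateFrom ⟨B, hB, n, rfl⟩

theorem cnt_pos {η : Cfg} {B : Set ℝ} : 1 ≤ η.cnt B ↔ ∃ y ∈ η.pts, y ∈ B := by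
  unfold Cfg.cnt
  rw [Nat.one_le_iff_ne_zero, ← Nat.pos_iff_ne_zero, Set.ncard_pos (η.pts.finite_toSet.subset inter_subset_left)]
  exact ⟨fun ⟨y, h1, h2⟩ => ⟨y, h1, h2⟩, fun ⟨y, h1, h2⟩ => ⟨y, h1, h2⟩⟩

theorem cnt_two {η : Cfg} {B : Set ℝ} : 2 ≤ η.cnt B ↔ ∃ y ∈ η.pts, ∃ z ∈ η.pts, y ∈ B ∧ z ∈ B ∧ y ≠ z := by
  unfold Cfg.cnt
  rw [show (2 ≤ ((η.pts : Set ℝ) ∩ B).ncard) ↔ 1 < ((η.pts : Set ℝ) ∩ B).ncard from Iff.rfl,
    Set.one_lt_ncard (η.pts.finite_toSet.subset inter_subset_left)]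
  constructor
  · rintro ⟨y, ⟨h1, h2⟩, z, ⟨h3, h4⟩, h5⟩
    exact ⟨y, h1, z, h3, h2, h4, h5⟩
  · rintro ⟨y, h1, z, h3, h2, h4, h5⟩
    exact ⟨y, ⟨h1, h2⟩, z, ⟨h3, h4⟩, h5⟩

theorem card_cnt (η : Cfg) : η.pts.card = η.cnt univ := by
  unfold Cfg.cnt; rw [inter_univ, Set.ncard_coe_finset]

theorem meas_card : Measurable fun η : Cfg => η.pts.card := by
  have : (fun η : Cfg => η.pts.card) = fun η : Cfg => η.cnt univ := funext card_cnt
  rw [this]; exact meas_cnt _ MeasurableSet.univ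

theorem meas_F : Measurable F := by
  refine measurable_of_Ioi fun c => ?_
  have : F ⁻¹' Ioi c = {η : Cfg | 1 ≤ η.cnt (Ioi c)} ∪ ({η : Cfg | η.pts.card = 0} ∩ {_η : Cfg | c < 0}) := by
    ext η
    simp only [mem_preimage, mem_Ioi, mem_union, mem_setOf_eq, mem_inter_iff]
    rw [cnt_pos]
    rcases Finset.eq_empty_or_nonempty η.pts with h | h
    · have h0 : F η = 0 := by unfold F; rw [h, Finset.coe_empty, Real.sSup_empty]
      rw [h0, h]; simp
    · constructor
      · intro hc; exact Or.inl ⟨F η, F_mem h, hc⟩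
      · rintro (⟨y, hy, hyc⟩ | ⟨h1, _⟩)
        · exact lt_of_lt_of_le hyc (le_F hy)
        · exact absurd h1 (Finset.card_pos.mpr h).ne'
  rw [this]
  refine MeasurableSet.union ?_ (MeasurableSet.inter ?_ (MeasurableSet.const _))
  · exact (meas_cnt _ measurableSet_Ioi) (MeasurableSet.of_discrete (s := {n : ℕ | 1 ≤ n}))
  · exact meas_card (MeasurableSet.of_discrete (s := {n : ℕ | n = 0}))

theorem meas_G : Measurable G := by
  refine measurable_of_Ioi fun c => ?_
  have : G ⁻¹' Ioi c = ({η : Cfg | η.pts.card ≤ 1} ∩ {η : Cfg | c < F η - 1}) ∪ ({η : Cfg | ¬ η.pts.card ≤ 1} ∩ {η : Cfg | 2 ≤ η.cnt (Ioi c)}) := by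
    ext η
    simp only [mem_preimage, mem_Ioi, mem_union, mem_setOf_eq, mem_inter_iff]
    by_cases hc : η.pts.card ≤ 1
    · have : G η = F η - 1 := by unfold G; rw [if_pos hc]
      rw [this]; simp [hc]
    · have hne : η.pts.Nonempty := by rw [← Finset.card_pos]; omega
      obtain ⟨a, b, hab⟩ : ∃ a b, IsTop η a b := by
        rcases cases_top η hne with ⟨a, ha⟩ | h
        · exact absurd (by rw [ha, Finset.card_singleton]) hc
        · exact h
      rw [hab.G_eq, cnt_two]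
      simp only [hc, false_and, not_false_iff, true_and, false_or]
      constructor
      · intro h
        exact ⟨a, hab.1, b, hab.2.1, lt_trans h hab.2.2.1, h, hab.2.2.1.ne'⟩
      · rintro ⟨y, hy, z, hz, h1, h2, h3⟩
        rcases hab.2.2.2 y hy with e1 | e1
        · rcases hab.2.2.2 z hz with e2 | e2
          · exact absurd (e1.trans e2.symm) h3
          · exact lt_of_lt_of_le h2 e2
        · exact lt_of_lt_of_le h1 e1
  rw [this]
  have h1 : MeasurableSet {η : Cfg | η.pts.card ≤ 1} := meas_card (MeasurableSet.of_discrete (s := {n : ℕ | n ≤ 1}))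
  refine MeasurableSet.union (h1.inter ?_) (h1.compl.inter ?_)
  · exact (meas_F.sub_const 1) measurableSet_Ioi
  · exact (meas_cnt _ measurableSet_Ioi) (MeasurableSet.of_discrete (s := {n : ℕ | 2 ≤ n}))

theorem meas_D : Measurable D := meas_F.sub meas_G

end Pool.Agent.R928.BP
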